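import Pool.Agent.Y628.LA.Upper

namespace Pool.Agent.Y628.LA

open Set

theorem exists_enum (A : Finset (Set (Projectivization ℝ (Fin 3 → ℝ))))
    (hA : IsSimpleArrangement A) :
    ∃ a : {L // L ∈ A} → Fin 3 → ℝ, Enum A a ∧ GP a := by
  have h : ∀ L : {L // L ∈ A}, ∃ b : Fin 3 → ℝ, (L : Set _) = Ln b := by
    intro L
    obtain ⟨b, _, hb⟩ := hA.line L L.2
    exact ⟨b, hb⟩
  choose a ha using h
  refine ⟨a, ⟨fun L => ⟨fun hL => ⟨⟨L, hL⟩, ha ⟨L, hL⟩⟩, ?_⟩, ?_⟩, ?_⟩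
  · rintro ⟨i, rfl⟩
    rw [← ha i]; exact i.2
  · intro i j hij
    apply Subtype.ext
    rw [ha i, ha j]; exact hij
  · intro i j k hij hik hjk w h1 h2 h3
    by_contra hw
    refine hA.simple i i.2 j j.2 k k.2 (fun h => hij (Subtype.ext h)) (fun h => hik (Subtype.ext h))
      (fun h => hjk (Subtype.ext h)) ⟨Projectivization.mk ℝ w hw, ?_, ?_, ?_⟩
    · rw [ha i]; exact (mk_mem_Ln hw _).2 h1
    · rw [ha j]; exact (mk_mem_Ln hw _).2 h2
    · rw [ha k]; exact (mk_mem_Ln hw _).2 h3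

open Classical in
theorem sides_eq {ι : Type} [Fintype ι] {A : Finset (Set (Projectivization ℝ (Fin 3 → ℝ)))}
    {a : ι → Fin 3 → ℝ} (hA : Enum A a) (hc : 2 ≤ Fintype.card ι) {x : Fin 3 → ℝ} (hx : x ≠ 0)
    (hax : ∀ i, a i ⬝ᵥ x ≠ 0) :
    sides A (connectedComponentIn {q | ∀ L ∈ A, q ∉ L} (Projectivization.mk ℝ x hx)) =
      (Finset.univ.filter fun j => Bd a x j).card := by
  have hne : ∀ i : ι, ∃ j, j ≠ i := by
    intro i
    have : Nontrivial ι := Fintype.one_lt_card_iff_nontrivial.1 (by omega)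
    exact exists_ne i
  have : {L | L ∈ A ∧ ∃ e, IsEdgeOn A L e ∧ e ⊆ frontier
      (connectedComponentIn {q | ∀ L ∈ A, q ∉ L} (Projectivization.mk ℝ x hx))} =
      (fun j => Ln (a j)) '' (Finset.univ.filter fun j => Bd a x j : Finset ι) := by
    ext L
    simp only [mem_ofPred_eq, mem_image, Finset.coe_filter, Finset.mem_univ, true_and]
    constructor
    · rintro ⟨hL, he⟩
      obtain ⟨i, rfl⟩ := (hA.mem L).1 hL
      exact ⟨i, (edge_iff hA hx hax i (hne i)).1 he, rfl⟩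
    · rintro ⟨i, hi, rfl⟩
      exact ⟨(hA.mem _).2 ⟨i, rfl⟩, (edge_iff hA hx hax i (hne i)).2 hi⟩
  rw [sides, this, Set.ncard_image_of_injective _ hA.inj, Set.ncard_coe_finset]

theorem faces_eq_iff {ι : Type} [Finite ι] [Nonempty ι]
    {A : Finset (Set (Projectivization ℝ (Fin 3 → ℝ)))}
    {a : ι → Fin 3 → ℝ} (hA : Enum A a) {x x' : Fin 3 → ℝ} (hx : x ≠ 0) (hx' : x' ≠ 0)
    (hax : ∀ i, a i ⬝ᵥ x ≠ 0) (hax' : ∀ i, a i ⬝ᵥ x' ≠ 0) :
    connectedComponentIn {q | ∀ L ∈ A, q ∉ L} (Projectivization.mk ℝ x hx) =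
      connectedComponentIn {q | ∀ L ∈ A, q ∉ L} (Projectivization.mk ℝ x' hx') ↔
    ((∀ i, 0 < (a i ⬝ᵥ x) * (a i ⬝ᵥ x')) ∨ (∀ i, (a i ⬝ᵥ x) * (a i ⬝ᵥ x') < 0)) := by
  constructor
  · intro h
    have hm : Projectivization.mk ℝ x' hx' ∈
        connectedComponentIn {q | ∀ L ∈ A, q ∉ L} (Projectivization.mk ℝ x hx) := by
      rw [h]
      exact mem_connectedComponentIn ((mk_compl_iff hA hx').2 hax')
    rw [mem_face_iff hA hx hax] at hm
    obtain ⟨y, hy, he, hs⟩ := hm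
    rw [Projectivization.mk_eq_mk_iff'] at he
    obtain ⟨c, rfl⟩ := he
    have hc : c ≠ 0 := by
      rintro rfl
      exact hx' (zero_smul _ _)
    rcases lt_or_gt_of_ne hc with h1 | h1
    · right
      intro i
      rw [dotProduct_smul, smul_eq_mul]
      have := mul_pos (neg_pos.2 h1) (hs i)
      nlinarith
    · left
      intro i
      rw [dotProduct_smul, smul_eq_mul]
      have := mul_pos h1 (hs i)
      nlinarith
  · intro h
    have hm : Projectivization.mk ℝ x' hx' ∈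
        connectedComponentIn {q | ∀ L ∈ A, q ∉ L} (Projectivization.mk ℝ x hx) := by
      rw [mem_face_iff hA hx hax]
      rcases h with h | h
      · exact ⟨x', hx', rfl, h⟩
      · refine ⟨-x', neg_ne_zero.2 hx', ?_, fun i => ?_⟩
        · rw [Projectivization.mk_eq_mk_iff']
          exact ⟨-1, by simp⟩
        · rw [dotProduct_neg]
          have := h i
          linarith
    exact connectedComponentIn_eq hm

/-- the upper bound -/
theorem upper {A : Finset (Set (Projectivization ℝ (Fin 3 → ℝ)))} (hA : IsSimpleArrangement A)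
    {k : ℕ} (F : Fin k → Set (Projectivization ℝ (Fin 3 → ℝ))) (hF : Function.Injective F)
    (hf : ∀ i, IsFace A (F i)) :
    ∑ i, sides A (F i) ≤ A.card + 2 * (k * (k - 1)) := by
  classical
  obtain ⟨a, hE, hG⟩ := exists_enum A hA
  have hcard : Fintype.card {L // L ∈ A} = A.card := Fintype.card_coe A
  have hc2 : 2 ≤ Fintype.card {L // L ∈ A} := by rw [hcard]; have := hA.three_le; omega
  have : Nonempty {L // L ∈ A} := Fintype.card_pos_iff.1 (by omega)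
  have hpt : ∀ i, ∃ x : Fin 3 → ℝ, ∃ hx : x ≠ 0, (∀ j, a j ⬝ᵥ x ≠ 0) ∧
      F i = connectedComponentIn {q | ∀ L ∈ A, q ∉ L} (Projectivization.mk ℝ x hx) := by
    intro i
    obtain ⟨p, hp, hFp⟩ := hf i
    refine ⟨p.rep, p.rep_nonzero, (hE.compl_iff p).1 hp, ?_⟩
    rw [p.mk_rep]; exact hFp
  choose x hx hax hFx using hpt
  have hs : ∀ i, sides A (F i) = (Finset.univ.filter fun j => Bd a (x i) j).card := by
    intro i
    rw [hFx i]
    exact sides_eq hE hc2 (hx i) (hax i)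
  have hdist : ∀ i ∈ (Finset.univ : Finset (Fin k)), ∀ j ∈ (Finset.univ : Finset (Fin k)), i ≠ j →
      ((Finset.univ.filter fun l => Bd a (x i) l) ∩
        (Finset.univ.filter fun l => Bd a (x j) l)).card ≤ 4 := by
    intro i _ j _ hij
    have hne : ¬ ((∀ l, 0 < (a l ⬝ᵥ x i) * (a l ⬝ᵥ x j)) ∨
        (∀ l, (a l ⬝ᵥ x i) * (a l ⬝ᵥ x j) < 0)) := by
      rw [← faces_eq_iff hE (hx i) (hx j) (hax i) (hax j), ← hFx i, ← hFx j]
      exact fun h => hij (hF h)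
    rw [not_or] at hne
    obtain ⟨h1, h2⟩ := hne
    rw [not_forall] at h1 h2
    obtain ⟨l₁, h1⟩ := h1
    obtain ⟨l₂, h2⟩ := h2
    have q : ∀ l, (a l ⬝ᵥ x i) * (a l ⬝ᵥ x j) ≠ 0 := fun l => mul_ne_zero (hax i l) (hax j l)
    exact common_le_four hG (hax i) (hax j) ⟨l₁, lt_of_le_of_ne (not_lt.1 h1) (q l₁)⟩
      ⟨l₂, lt_of_le_of_ne (not_lt.1 h2) (q l₂).symm⟩
  have := sum_card_le (fun i => Finset.univ.filter fun j => Bd a (x i) j) Finset.univ hdist
  have h2 : ((Finset.univ : Finset (Fin k)).biUnion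
      fun i => Finset.univ.filter fun j => Bd a (x i) j).card ≤ A.card := by
    rw [← hcard]
    exact Finset.card_le_univ _
  rw [Finset.sum_congr rfl fun i _ => hs i]
  rw [Finset.card_univ, Fintype.card_fin] at this
  exact this.trans (Nat.add_le_add_right h2 _)

theorem two_forms (u v : Fin 3 → ℝ) : ∃ w : Fin 3 → ℝ, w ≠ 0 ∧ u ⬝ᵥ w = 0 ∧ v ⬝ᵥ w = 0 := by
  have hdet : (Matrix.of ![u, v, (0 : Fin 3 → ℝ)]).det = 0 :=
    Matrix.det_eq_zero_of_row_eq_zero 2 (fun j => rfl)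
  obtain ⟨w, hw, hw0⟩ := Matrix.exists_mulVec_eq_zero_iff.2 hdet
  refine ⟨w, hw, ?_, ?_⟩
  · have := congrFun hw0 0
    simpa [Matrix.mulVec] using this
  · have := congrFun hw0 1
    simpa [Matrix.mulVec] using this

/-- from vectors to arrangements -/
theorem realize {ι : Type} [Fintype ι] {a : ι → Fin 3 → ℝ} (h3 : 3 ≤ Fintype.card ι) (hG : GP a)
    {k : ℕ} (x : Fin k → Fin 3 → ℝ) (hx : ∀ i j, a j ⬝ᵥ x i ≠ 0) (T : Fin k → Finset ι)
    (hT : ∀ i, ∀ j ∈ T i, Bd a (x i) j)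
    (hd : ∀ i j, i ≠ j → (∃ l, (a l ⬝ᵥ x i) * (a l ⬝ᵥ x j) < 0) ∧
      ∃ l, 0 < (a l ⬝ᵥ x i) * (a l ⬝ᵥ x j)) :
    ∃ (A : Finset (Set (Projectivization ℝ (Fin 3 → ℝ))))
      (F : Fin k → Set (Projectivization ℝ (Fin 3 → ℝ))),
      IsSimpleArrangement A ∧ A.card = Fintype.card ι ∧ Function.Injective F ∧
      (∀ i, IsFace A (F i)) ∧ ∑ i, (T i).card ≤ ∑ i, sides A (F i) := by
  classical
  have hthird : ∀ i j : ι, ∃ l, l ≠ i ∧ l ≠ j := by
    intro i j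
    by_contra hcon
    push Not at hcon
    have : (Finset.univ : Finset ι) ⊆ {i, j} := by
      intro l _
      rw [Finset.mem_insert, Finset.mem_singleton]
      by_cases h : l = i
      · exact Or.inl h
      · exact Or.inr (hcon l h)
    have h2 := Finset.card_le_card this
    have h4 := Finset.card_le_two (a := i) (b := j)
    rw [Finset.card_univ] at h2
    omega
  have hinj : Function.Injective fun i => Ln (a i) := by
    intro i j hij
    by_contra hne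
    obtain ⟨l, hl1, hl2⟩ := hthird i j
    obtain ⟨w, hw, h1, h2⟩ := two_forms (a i) (a l)
    have h3 : Projectivization.mk ℝ w hw ∈ Ln (a i) := (mk_mem_Ln hw _).2 h1
    have hij' : Ln (a i) = Ln (a j) := hij
    rw [hij'] at h3
    exact hw (hG i j l hne hl1.symm hl2.symm w h1 ((mk_mem_Ln hw _).1 h3) h2)
  set A : Finset (Set (Projectivization ℝ (Fin 3 → ℝ))) := Finset.univ.image fun i => Ln (a i)
    with hAdef
  have hE : Enum A a := by
    refine ⟨fun L => ?_, hinj⟩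
    rw [hAdef, Finset.mem_image]
    constructor
    · rintro ⟨i, _, rfl⟩; exact ⟨i, rfl⟩
    · rintro ⟨i, rfl⟩; exact ⟨i, Finset.mem_univ _, rfl⟩
  have hAc : A.card = Fintype.card ι := by
    rw [hAdef, Finset.card_image_of_injective _ hinj, Finset.card_univ]
  have hsimple : ∀ L₁ ∈ A, ∀ L₂ ∈ A, ∀ L₃ ∈ A, L₁ ≠ L₂ → L₁ ≠ L₃ → L₂ ≠ L₃ →
      ¬ ∃ p, p ∈ L₁ ∧ p ∈ L₂ ∧ p ∈ L₃ := by
    intro L₁ m₁ L₂ m₂ L₃ m₃ d₁ d₂ d₃
    rintro ⟨p, p₁, p₂, p₃⟩
    obtain ⟨i₁, rfl⟩ := (hE.mem _).1 m₁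
    obtain ⟨i₂, rfl⟩ := (hE.mem _).1 m₂
    obtain ⟨i₃, rfl⟩ := (hE.mem _).1 m₃
    exact p.rep_nonzero (hG i₁ i₂ i₃ (fun h => d₁ (by rw [h])) (fun h => d₂ (by rw [h]))
      (fun h => d₃ (by rw [h])) p.rep p₁ p₂ p₃)
  have : Nonempty ι := Fintype.card_pos_iff.1 (by omega)
  obtain ⟨i₀⟩ := this
  have : Nonempty ι := ⟨i₀⟩
  have hx0 : ∀ i, x i ≠ 0 := fun i => ne_zero_of_dot (hx i i₀)
  have hAsimp : IsSimpleArrangement A := by
    refine ⟨?_, by rw [hAc]; exact h3, ?_, hsimple⟩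
    · intro L hL
      obtain ⟨i, rfl⟩ := (hE.mem L).1 hL
      refine ⟨a i, fun h0 => ?_, rfl⟩
      obtain ⟨l, hl1, _⟩ := hthird i i
      obtain ⟨m, hm1, hm2⟩ := hthird i l
      obtain ⟨w, hw, h1, h2⟩ := two_forms (a l) (a m)
      exact hw (hG i l m hl1.symm hm1.symm hm2.symm w (by rw [h0, zero_dotProduct]) h1 h2)
    · rintro ⟨p, hp⟩
      obtain ⟨l, hl1, _⟩ := hthird i₀ i₀
      obtain ⟨m, hm1, hm2⟩ := hthird i₀ l
      have hm : ∀ i, Ln (a i) ∈ A := fun i => (hE.mem _).2 ⟨i, rfl⟩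
      exact p.rep_nonzero (hG i₀ l m hl1.symm hm1.symm hm2.symm p.rep (hp _ (hm i₀)) (hp _ (hm l))
        (hp _ (hm m)))
  refine ⟨A, fun i => connectedComponentIn {q | ∀ L ∈ A, q ∉ L}
    (Projectivization.mk ℝ (x i) (hx0 i)), hAsimp, hAc, ?_, ?_, ?_⟩
  · intro i j hij
    by_contra hne
    have h1 := (faces_eq_iff hE (hx0 i) (hx0 j) (hx i) (hx j)).1 hij
    obtain ⟨⟨l₁, q₁⟩, l₂, q₂⟩ := hd i j hne
    rcases h1 with h1 | h1
    · have := h1 l₁; linarith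
    · have := h1 l₂; linarith
  · intro i
    exact ⟨_, (mk_compl_iff hE (hx0 i)).2 (hx i), rfl⟩
  · refine Finset.sum_le_sum fun i _ => ?_
    rw [sides_eq hE (by omega) (hx0 i) (hx i)]
    refine Finset.card_le_card fun j hj => ?_
    rw [Finset.mem_filter]
    exact ⟨Finset.mem_univ _, hT i j hj⟩

end Pool.Agent.Y628.LA
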