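import Pool.Agent.Y628.LA.Tan

namespace Pool.Agent.Y628.LA

open Set

/-- sign of a Boolean -/
noncomputable def sg (b : Bool) : ℝ := if b then 1 else -1

theorem sg_cases (b : Bool) : sg b = 1 ∨ sg b = -1 := by cases b <;> simp [sg]

theorem sg_inj {b c : Bool} (h : sg b = sg c) : b = c := by
  cases b <;> cases c <;> simp [sg] at h ⊢ <;> norm_num at h

theorem sg_sq (b : Bool) : sg b * sg b = 1 := by cases b <;> simp [sg]

/-- pairs of indices -/
abbrev Prs (k : ℕ) := {p : Fin k × Fin k // p.1 < p.2}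

/-- the index set of the lines -/
abbrev Idx (k m : ℕ) := (Prs k × Bool × Bool) ⊕ Fin m

variable {k m : ℕ}

/-- first index -/
noncomputable def P1 (p : Prs k) : ℝ := ((p.1.1 : ℕ) : ℝ)
/-- second index -/
noncomputable def P2 (p : Prs k) : ℝ := ((p.1.2 : ℕ) : ℝ)

theorem P1_lt_P2 (p : Prs k) : P1 p < P2 p := by
  unfold P1 P2
  exact_mod_cast p.2

/-- slope -/
noncomputable def Sl (p : Prs k) : ℝ := P1 p + P2 p
/-- norm of `(1, slope)` -/
noncomputable def Wn (S : ℝ) : ℝ := Real.sqrt (1 + S ^ 2)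

theorem Wn_pos (S : ℝ) : 0 < Wn S := Real.sqrt_pos.2 (by positivity)

theorem Wn_sq (S : ℝ) : Wn S * Wn S = 1 + S ^ 2 := Real.mul_self_sqrt (by positivity)

/-- distance of the two centres -/
noncomputable def Ds (p : Prs k) : ℝ := (P2 p - P1 p) * Wn (Sl p)

theorem Ds_pos (p : Prs k) : 0 < Ds p := mul_pos (sub_pos.2 (P1_lt_P2 p)) (Wn_pos _)

/-- component of the normal along the line of centres -/
noncomputable def rh (p : Prs k) (s : Bool) (r : ℝ) : ℝ := (sg s - 1) * r / Ds p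

/-- first coordinate of the normal -/
noncomputable def N1 : Idx k m → ℝ → ℝ
  | Sum.inl (p, s, e), r => (rh p s r - sg e * Real.sqrt (1 - rh p s r ^ 2) * Sl p) / Wn (Sl p)
  | Sum.inr t, _ => 1 / Wn ((t : ℕ) + 1)

/-- second coordinate of the normal -/
noncomputable def N2 : Idx k m → ℝ → ℝ
  | Sum.inl (p, s, e), r => (rh p s r * Sl p + sg e * Real.sqrt (1 - rh p s r ^ 2)) / Wn (Sl p)
  | Sum.inr t, _ => ((t : ℕ) + 1) / Wn ((t : ℕ) + 1)

/-- the constant coefficient -/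
noncomputable def Hh : Idx k m → ℝ → ℝ
  | Sum.inl (p, s, e), r => r - N1 (m := m) (Sum.inl (p, s, e)) r * P1 p -
      N2 (m := m) (Sum.inl (p, s, e)) r * P1 p ^ 2
  | Sum.inr _, r => r

/-- the value of the form at the `i`-th centre -/
noncomputable def Lv (l : Idx k m) (i : ℕ) (r : ℝ) : ℝ :=
  N1 l r * (i : ℝ) + N2 l r * (i : ℝ) ^ 2 + Hh l r

theorem cont_rh (p : Prs k) (s : Bool) : Continuous (rh p s) := by
  unfold rh
  fun_prop

theorem cont_N1 (l : Idx k m) : Continuous (N1 l) := by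
  rcases l with ⟨p, s, e⟩ | t
  · have h := cont_rh p s
    unfold N1
    exact ((h.sub ((continuous_const.mul (Real.continuous_sqrt.comp
      (continuous_const.sub (h.pow 2)))).mul continuous_const))).div_const _
  · exact continuous_const

theorem cont_N2 (l : Idx k m) : Continuous (N2 l) := by
  rcases l with ⟨p, s, e⟩ | t
  · have h := cont_rh p s
    unfold N2
    exact ((h.mul continuous_const).add (continuous_const.mul (Real.continuous_sqrt.comp
      (continuous_const.sub (h.pow 2))))).div_const _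
  · exact continuous_const

theorem cont_Hh (l : Idx k m) : Continuous (Hh l) := by
  rcases l with ⟨p, s, e⟩ | t
  · have h1 := cont_N1 (m := m) (Sum.inl (p, s, e))
    have h2 := cont_N2 (m := m) (Sum.inl (p, s, e))
    unfold Hh
    exact (continuous_id.sub (h1.mul continuous_const)).sub (h2.mul continuous_const)
  · exact continuous_id

theorem cont_Lv (l : Idx k m) (i : ℕ) : Continuous (Lv l i) := by
  unfold Lv
  exact ((cont_N1 l).mul continuous_const).add ((cont_N2 l).mul continuous_const) |>.add (cont_Hh l)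

/-- smallness of the radius -/
theorem small_rh (p : Prs k) (s : Bool) :
    ∀ᶠ r : ℝ in nhdsWithin 0 (Ioi 0), rh p s r ^ 2 < 1 := by
  have h : Continuous fun r => rh p s r ^ 2 := (cont_rh p s).pow 2
  have h0 : rh p s 0 ^ 2 < 1 := by simp [rh]
  exact nhdsWithin_le_nhds ((h.tendsto 0).eventually (gt_mem_nhds h0))

theorem unit_of_small {r : ℝ} (hr : ∀ (p : Prs k) (s : Bool), rh p s r ^ 2 < 1) (l : Idx k m) :
    N1 l r ^ 2 + N2 l r ^ 2 = 1 := by
  rcases l with ⟨p, s, e⟩ | t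
  · have hW := Wn_sq (Sl p)
    have hW0 := (Wn_pos (Sl p)).ne'
    have hs : Real.sqrt (1 - rh p s r ^ 2) * Real.sqrt (1 - rh p s r ^ 2) = 1 - rh p s r ^ 2 :=
      Real.mul_self_sqrt (by linarith [hr p s])
    have he := sg_sq e
    show ((rh p s r - sg e * Real.sqrt (1 - rh p s r ^ 2) * Sl p) / Wn (Sl p)) ^ 2 +
      ((rh p s r * Sl p + sg e * Real.sqrt (1 - rh p s r ^ 2)) / Wn (Sl p)) ^ 2 = 1
    rw [div_pow, div_pow, ← add_div, div_eq_one_iff_eq (pow_ne_zero 2 hW0)]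
    generalize Real.sqrt (1 - rh p s r ^ 2) = q at *
    have : Wn (Sl p) ^ 2 = 1 + Sl p ^ 2 := by rw [← hW]; ring
    rw [this]
    have e1 : (rh p s r - sg e * q * Sl p) ^ 2 + (rh p s r * Sl p + sg e * q) ^ 2 =
      (rh p s r ^ 2 + (sg e * sg e) * (q * q)) * (1 + Sl p ^ 2) := by ring
    rw [e1, he, hs]; ring
  · have hW := Wn_sq ((t : ℕ) + 1 : ℝ)
    have hW0 := (Wn_pos ((t : ℕ) + 1 : ℝ)).ne'
    show (1 / Wn ((t : ℕ) + 1)) ^ 2 + (((t : ℕ) + 1) / Wn ((t : ℕ) + 1)) ^ 2 = 1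
    rw [div_pow, div_pow, ← add_div, div_eq_one_iff_eq (pow_ne_zero 2 hW0)]
    have : Wn ((t : ℕ) + 1 : ℝ) ^ 2 = 1 + ((t : ℕ) + 1 : ℝ) ^ 2 := by rw [← hW]; ring
    rw [this]; ring

theorem Lv_first (p : Prs k) (s e : Bool) (r : ℝ) :
    Lv (m := m) (Sum.inl (p, s, e)) p.1.1 r = r := by
  unfold Lv Hh P1
  ring

theorem Lv_inl (p : Prs k) (s e : Bool) (r : ℝ) (i : ℕ) :
    Lv (m := m) (Sum.inl (p, s, e)) i r = r + ((i : ℝ) - P1 p) *
      (N1 (m := m) (Sum.inl (p, s, e)) r + N2 (m := m) (Sum.inl (p, s, e)) r * ((i : ℝ) + P1 p)) := by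
  unfold Lv Hh
  ring

theorem Lv_second (p : Prs k) (s e : Bool) (r : ℝ) :
    Lv (m := m) (Sum.inl (p, s, e)) p.1.2 r = sg s * r := by
  rw [Lv_inl]
  have hW := Wn_sq (Sl p)
  have hW0 := (Wn_pos (Sl p)).ne'
  have h2 : ((p.1.2 : ℕ) : ℝ) = P2 p := rfl
  have hS : P2 p + P1 p = Sl p := by unfold Sl; ring
  rw [h2, hS]
  have hD : Ds p = (P2 p - P1 p) * Wn (Sl p) := rfl
  have hD0 : P2 p - P1 p ≠ 0 := (sub_pos.2 (P1_lt_P2 p)).ne'
  have e1 : N1 (m := m) (Sum.inl (p, s, e)) r + N2 (m := m) (Sum.inl (p, s, e)) r * Sl p =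
      rh p s r * Wn (Sl p) := by
    show (rh p s r - sg e * Real.sqrt (1 - rh p s r ^ 2) * Sl p) / Wn (Sl p) +
      (rh p s r * Sl p + sg e * Real.sqrt (1 - rh p s r ^ 2)) / Wn (Sl p) * Sl p = _
    field_simp
    have : Wn (Sl p) ^ 2 = 1 + Sl p ^ 2 := by rw [← hW]; ring
    rw [this]; ring
  rw [e1]
  unfold rh
  rw [hD]
  field_simp
  ring

/-- the set of lines tangent to the `i`-th circle -/
def Tn (k m : ℕ) (i : Fin k) : Set (Idx k m) :=
  {l | match l with
    | Sum.inl (p, _, _) => p.1.1 = i ∨ p.1.2 = i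
    | Sum.inr _ => (i : ℕ) = 0}

/-- the sign of the form at the `i`-th centre -/
noncomputable def si (i : Fin k) : Idx k m → ℝ
  | Sum.inl (p, s, _) => if p.1.1 = i then 1 else sg s
  | Sum.inr _ => 1

theorem si_cases (i : Fin k) (l : Idx k m) : si i l = 1 ∨ si i l = -1 := by
  rcases l with ⟨p, s, e⟩ | t
  · unfold si
    by_cases h : p.1.1 = i
    · left; simp [h]
    · simp only [h, if_false]; exact sg_cases s
  · left; rfl

theorem Lv_Tn (i : Fin k) (l : Idx k m) (hl : l ∈ Tn k m i) (r : ℝ) :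
    Lv l i r = si i l * r := by
  rcases l with ⟨p, s, e⟩ | t
  · have hl' : p.1.1 = i ∨ p.1.2 = i := hl
    by_cases h : p.1.1 = i
    · have : si (m := m) i (Sum.inl (p, s, e)) = 1 := by simp [si, h]
      rw [this, one_mul, ← h]
      exact Lv_first p s e r
    · have h2 := hl'.resolve_left h
      have : si (m := m) i (Sum.inl (p, s, e)) = sg s := by simp [si, h]
      rw [this, ← h2]
      exact Lv_second p s e r
  · have h0 : (i : ℕ) = 0 := hl
    show _ = 1 * r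
    unfold Lv Hh
    rw [h0]; simp

theorem rh_zero (p : Prs k) (s : Bool) : rh p s 0 = 0 := by simp [rh]

theorem Lv_not_Tn (i : Fin k) (l : Idx k m) (hl : l ∉ Tn k m i) : Lv l i 0 ≠ 0 := by
  rcases l with ⟨p, s, e⟩ | t
  · have hl' : ¬ (p.1.1 = i ∨ p.1.2 = i) := hl
    rw [not_or] at hl'
    obtain ⟨h1, h2⟩ := hl'
    rw [Lv_inl]
    have hW0 := (Wn_pos (Sl p)).ne'
    have e1 : N1 (m := m) (Sum.inl (p, s, e)) 0 + N2 (m := m) (Sum.inl (p, s, e)) 0 *
        ((((i : ℕ) : ℝ)) + P1 p) = sg e * (((i : ℕ) : ℝ) - P2 p) / Wn (Sl p) := by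
      show (rh p s 0 - sg e * Real.sqrt (1 - rh p s 0 ^ 2) * Sl p) / Wn (Sl p) +
        (rh p s 0 * Sl p + sg e * Real.sqrt (1 - rh p s 0 ^ 2)) / Wn (Sl p) *
          (((i : ℕ) : ℝ) + P1 p) = _
      rw [rh_zero]
      simp only [Sl]
      norm_num
      ring
    rw [e1, zero_add]
    refine mul_ne_zero ?_ (div_ne_zero (mul_ne_zero ?_ ?_) hW0)
    · intro h
      have : ((i : ℕ) : ℝ) = ((p.1.1 : ℕ) : ℝ) := sub_eq_zero.1 h
      exact h1 (Fin.ext (by exact_mod_cast this.symm))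
    · rcases sg_cases e with h | h <;> rw [h] <;> norm_num
    · intro h
      have : ((i : ℕ) : ℝ) = ((p.1.2 : ℕ) : ℝ) := sub_eq_zero.1 h
      exact h2 (Fin.ext (by exact_mod_cast this.symm))
  · have h0 : (i : ℕ) ≠ 0 := hl
    have hi : (0 : ℝ) < ((i : ℕ) : ℝ) := by exact_mod_cast Nat.pos_of_ne_zero h0
    have hW := Wn_pos ((t : ℕ) + 1 : ℝ)
    have : Lv (k := k) (m := m) (Sum.inr t) i 0 = 1 / Wn ((t : ℕ) + 1) * ((i : ℕ) : ℝ) +
      ((t : ℕ) + 1) / Wn ((t : ℕ) + 1) * ((i : ℕ) : ℝ) ^ 2 + 0 := rfl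
    rw [this]
    positivity

/-- cross product of the normals -/
noncomputable def cr (l l' : Idx k m) (r : ℝ) : ℝ := N1 l r * N2 l' r - N2 l r * N1 l' r

theorem cont_cr (l l' : Idx k m) : Continuous (cr l l') :=
  ((cont_N1 l).mul (cont_N2 l')).sub ((cont_N2 l).mul (cont_N1 l'))

/-- two lines of the same pair -/
def Same : Idx k m → Idx k m → Prop
  | Sum.inl (p, _, _), Sum.inl (p', _, _) => p = p'
  | _, _ => False

theorem cr_zero_ne (i : Fin k) (l l' : Idx k m) (hl : l ∈ Tn k m i) (hl' : l' ∈ Tn k m i)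
    (hne : l ≠ l') (hs : ¬ Same l l') : cr l l' 0 ≠ 0 := by
  have n1 : ∀ (p : Prs k) (s e : Bool), N1 (m := m) (Sum.inl (p, s, e)) 0 =
      -(sg e * Sl p / Wn (Sl p)) := by
    intro p s e
    show (rh p s 0 - sg e * Real.sqrt (1 - rh p s 0 ^ 2) * Sl p) / Wn (Sl p) = _
    rw [rh_zero]; norm_num; ring
  have n2 : ∀ (p : Prs k) (s e : Bool), N2 (m := m) (Sum.inl (p, s, e)) 0 =
      sg e / Wn (Sl p) := by
    intro p s e
    show (rh p s 0 * Sl p + sg e * Real.sqrt (1 - rh p s 0 ^ 2)) / Wn (Sl p) = _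
    rw [rh_zero]; norm_num
  have m1 : ∀ t : Fin m, N1 (k := k) (m := m) (Sum.inr t) 0 = 1 / Wn ((t : ℕ) + 1) := fun t => rfl
  have m2 : ∀ t : Fin m, N2 (k := k) (m := m) (Sum.inr t) 0 =
      ((t : ℕ) + 1) / Wn ((t : ℕ) + 1) := fun t => rfl
  have hsg : ∀ e, sg e ≠ 0 := by
    intro e; rcases sg_cases e with h | h <;> rw [h] <;> norm_num
  have hP : ∀ p : Prs k, 0 < Sl p := by
    intro p
    have h1 := P1_lt_P2 p
    have h2 : 0 ≤ P1 p := by unfold P1; positivity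
    unfold Sl; linarith
  rcases l with ⟨p, s, e⟩ | t <;> rcases l' with ⟨p', s', e'⟩ | t'
  · have h1 : p.1.1 = i ∨ p.1.2 = i := hl
    have h2 : p'.1.1 = i ∨ p'.1.2 = i := hl'
    have h3 : p ≠ p' := hs
    unfold cr
    rw [n1, n2, n1, n2]
    have hW := (Wn_pos (Sl p)).ne'
    have hW' := (Wn_pos (Sl p')).ne'
    have e1 : -(sg e * Sl p / Wn (Sl p)) * (sg e' / Wn (Sl p')) -
        sg e / Wn (Sl p) * -(sg e' * Sl p' / Wn (Sl p')) =
        sg e * sg e' * (Sl p' - Sl p) / (Wn (Sl p) * Wn (Sl p')) := by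
      field_simp
      ring
    rw [e1]
    refine div_ne_zero (mul_ne_zero (mul_ne_zero (hsg _) (hsg _)) ?_) (mul_ne_zero hW hW')
    intro h
    apply h3
    have h4 : Sl p' = Sl p := sub_eq_zero.1 h
    unfold Sl P1 P2 at h4
    have h5 : (p'.1.1 : ℕ) + (p'.1.2 : ℕ) = (p.1.1 : ℕ) + (p.1.2 : ℕ) := by exact_mod_cast h4
    have h6 : (p.1.1 : ℕ) < (p.1.2 : ℕ) := p.2
    have h7 : (p'.1.1 : ℕ) < (p'.1.2 : ℕ) := p'.2
    have h8 : (p.1.1 : ℕ) = (i : ℕ) ∨ (p.1.2 : ℕ) = (i : ℕ) := h1.imp (congrArg _) (congrArg _)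
    have h9 : (p'.1.1 : ℕ) = (i : ℕ) ∨ (p'.1.2 : ℕ) = (i : ℕ) := h2.imp (congrArg _) (congrArg _)
    apply Subtype.ext
    apply Prod.ext
    · apply Fin.ext; omega
    · apply Fin.ext; omega
  · unfold cr
    rw [n1, n2, m1, m2]
    have hW := Wn_pos (Sl p)
    have hW' := Wn_pos ((t' : ℕ) + 1 : ℝ)
    have e1 : -(sg e * Sl p / Wn (Sl p)) * (((t' : ℕ) + 1) / Wn ((t' : ℕ) + 1)) -
        sg e / Wn (Sl p) * (1 / Wn ((t' : ℕ) + 1)) =
        -(sg e * (Sl p * ((t' : ℕ) + 1) + 1) / (Wn (Sl p) * Wn ((t' : ℕ) + 1))) := by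
      field_simp
      ring
    rw [e1]
    have := hP p
    refine neg_ne_zero.2 (div_ne_zero (mul_ne_zero (hsg _) ?_) (mul_pos hW hW').ne')
    positivity
  · unfold cr
    rw [n1, n2, m1, m2]
    have hW := Wn_pos (Sl p')
    have hW' := Wn_pos ((t : ℕ) + 1 : ℝ)
    have e1 : 1 / Wn ((t : ℕ) + 1) * (sg e' / Wn (Sl p')) -
        ((t : ℕ) + 1) / Wn ((t : ℕ) + 1) * -(sg e' * Sl p' / Wn (Sl p')) =
        (sg e' * (Sl p' * ((t : ℕ) + 1) + 1) / (Wn (Sl p') * Wn ((t : ℕ) + 1))) := by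
      field_simp
      ring
    rw [e1]
    have := hP p'
    refine (div_ne_zero (mul_ne_zero (hsg _) ?_) (mul_pos hW hW').ne')
    positivity
  · unfold cr
    rw [m1, m2, m1, m2]
    have hW := Wn_pos ((t' : ℕ) + 1 : ℝ)
    have hW' := Wn_pos ((t : ℕ) + 1 : ℝ)
    have e1 : 1 / Wn ((t : ℕ) + 1) * (((t' : ℕ) + 1) / Wn ((t' : ℕ) + 1)) -
        ((t : ℕ) + 1) / Wn ((t : ℕ) + 1) * (1 / Wn ((t' : ℕ) + 1)) =
        (((t' : ℕ) : ℝ) - (t : ℕ)) / (Wn ((t : ℕ) + 1) * Wn ((t' : ℕ) + 1)) := by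
      field_simp
      ring
    rw [e1]
    refine div_ne_zero (fun h => hne ?_) (mul_pos hW' hW).ne'
    have : ((t' : ℕ) : ℝ) = (t : ℕ) := sub_eq_zero.1 h
    have h2 : t' = t := Fin.ext (by exact_mod_cast this)
    rw [h2]

theorem same_distinct (i : Fin k) (l l' : Idx k m) (hl : l ∈ Tn k m i)
    (hne : l ≠ l') (hs : Same l l') {r : ℝ} (hr : 0 < r)
    (hsm : ∀ (p : Prs k) (s : Bool), rh p s r ^ 2 < 1) :
    ¬ (si i l * N1 l r = si i l' * N1 l' r ∧ si i l * N2 l r = si i l' * N2 l' r) := by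
  rcases l with ⟨p, s, e⟩ | t <;> rcases l' with ⟨p', s', e'⟩ | t'
  · have hp : p = p' := hs
    subst hp
    have h1 : p.1.1 = i ∨ p.1.2 = i := hl
    rintro ⟨a1, a2⟩
    have hW := (Wn_pos (Sl p)).ne'
    have hWW := Wn_sq (Sl p)
    have hW2 : Wn (Sl p) ^ 2 = 1 + Sl p ^ 2 := by rw [← hWW]; ring
    -- components along and across
    have c1 : ∀ s e, N1 (m := m) (Sum.inl (p, s, e)) r + N2 (m := m) (Sum.inl (p, s, e)) r * Sl p =
        rh p s r * Wn (Sl p) := by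
      intro s e
      show (rh p s r - sg e * Real.sqrt (1 - rh p s r ^ 2) * Sl p) / Wn (Sl p) +
        (rh p s r * Sl p + sg e * Real.sqrt (1 - rh p s r ^ 2)) / Wn (Sl p) * Sl p = _
      field_simp
      rw [hW2]; ring
    have c2 : ∀ s e, N2 (m := m) (Sum.inl (p, s, e)) r - N1 (m := m) (Sum.inl (p, s, e)) r * Sl p =
        sg e * Real.sqrt (1 - rh p s r ^ 2) * Wn (Sl p) := by
      intro s e
      show (rh p s r * Sl p + sg e * Real.sqrt (1 - rh p s r ^ 2)) / Wn (Sl p) -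
        (rh p s r - sg e * Real.sqrt (1 - rh p s r ^ 2) * Sl p) / Wn (Sl p) * Sl p = _
      field_simp
      rw [hW2]; ring
    set x := si (m := m) i (Sum.inl (p, s, e)) with hx
    set x' := si (m := m) i (Sum.inl (p, s', e')) with hx'
    have b1 : x * rh p s r = x' * rh p s' r := by
      have : x * (rh p s r * Wn (Sl p)) = x' * (rh p s' r * Wn (Sl p)) := by
        rw [← c1 s e, ← c1 s' e']
        linear_combination a1 + Sl p * a2
      have h3 : (x * rh p s r) * Wn (Sl p) = (x' * rh p s' r) * Wn (Sl p) := by linarith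
      exact mul_right_cancel₀ hW h3
    have b2 : x * (sg e * Real.sqrt (1 - rh p s r ^ 2)) =
        x' * (sg e' * Real.sqrt (1 - rh p s' r ^ 2)) := by
      have : x * (sg e * Real.sqrt (1 - rh p s r ^ 2) * Wn (Sl p)) =
          x' * (sg e' * Real.sqrt (1 - rh p s' r ^ 2) * Wn (Sl p)) := by
        rw [← c2 s e, ← c2 s' e']
        linear_combination a2 - Sl p * a1
      have h3 : (x * (sg e * Real.sqrt (1 - rh p s r ^ 2))) * Wn (Sl p) =
        (x' * (sg e' * Real.sqrt (1 - rh p s' r ^ 2))) * Wn (Sl p) := by linarith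
      exact mul_right_cancel₀ hW h3
    have hD := Ds_pos p
    have hss : s = s' := by
      have r1 : rh p true r = 0 := by simp [rh, sg]
      have r2 : rh p false r < 0 := by
        have : rh p false r = -(2 * r / Ds p) := by simp only [rh, sg]; norm_num; ring
        rw [this]
        have : 0 < 2 * r / Ds p := by positivity
        linarith
      have hx0 : x ≠ 0 := by
        rcases si_cases (m := m) i (Sum.inl (p, s, e)) with h | h <;> rw [hx, h] <;> norm_num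
      have hx0' : x' ≠ 0 := by
        rcases si_cases (m := m) i (Sum.inl (p, s', e')) with h | h <;> rw [hx', h] <;> norm_num
      cases s <;> cases s' <;> try rfl
      · rw [r1, mul_zero] at b1
        exact absurd b1 (mul_ne_zero hx0 r2.ne)
      · rw [r1, mul_zero] at b1
        exact absurd b1.symm (mul_ne_zero hx0' r2.ne)
    subst hss
    have hxx : x = x' := by rw [hx, hx']; rfl
    rw [← hxx] at b2
    have hx0 : x ≠ 0 := by
      rcases si_cases (m := m) i (Sum.inl (p, s, e)) with h | h <;> rw [hx, h] <;> norm_num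
    have b3 := mul_left_cancel₀ hx0 b2
    have hq : Real.sqrt (1 - rh p s r ^ 2) ≠ 0 := (Real.sqrt_pos.2 (by linarith [hsm p s])).ne'
    have b4 := mul_right_cancel₀ hq b3
    exact hne (by rw [sg_inj b4])
  · exact absurd hs id
  · exact absurd hs id
  · exact absurd hs id

theorem cr_distinct (i : Fin k) (l l' : Idx k m) {r : ℝ} (h : cr l l' r ≠ 0) :
    ¬ (si i l * N1 l r = si i l' * N1 l' r ∧ si i l * N2 l r = si i l' * N2 l' r) := by
  rintro ⟨a1, a2⟩
  apply h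
  have hx0 : si i l ≠ 0 := by rcases si_cases i l with h | h <;> rw [h] <;> norm_num
  have hx0' : si i l' ≠ 0 := by rcases si_cases i l' with h | h <;> rw [h] <;> norm_num
  have : (si i l * si i l') * cr l l' r = 0 := by
    unfold cr
    linear_combination (si i l' * N2 l' r) * a1 - (si i l' * N1 l' r) * a2
  exact (mul_eq_zero.1 this).resolve_left (mul_ne_zero hx0 hx0')

/-- a good radius -/
theorem exists_radius (k m : ℕ) : ∃ r : ℝ, 0 < r ∧ (∀ (p : Prs k) (s : Bool), rh p s r ^ 2 < 1) ∧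
    (∀ (i : Fin k) (l : Idx k m), l ∉ Tn k m i → r < |Lv l i r|) ∧
    (∀ (i : Fin k) (l l' : Idx k m), l ∈ Tn k m i → l' ∈ Tn k m i → l ≠ l' → ¬ Same l l' →
      cr l l' r ≠ 0) := by
  have e1 : ∀ᶠ r : ℝ in nhdsWithin 0 (Ioi 0), ∀ (p : Prs k) (s : Bool), rh p s r ^ 2 < 1 :=
    Filter.eventually_all.2 fun p => Filter.eventually_all.2 fun s => small_rh p s
  have e2 : ∀ᶠ r : ℝ in nhdsWithin 0 (Ioi 0), ∀ (i : Fin k) (l : Idx k m), l ∉ Tn k m i →
      r < |Lv l i r| := by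
    refine Filter.eventually_all.2 fun i => Filter.eventually_all.2 fun l => ?_
    by_cases h : l ∈ Tn k m i
    · exact Filter.Eventually.of_forall fun r h' => absurd h h'
    · have h0 := abs_pos.2 (Lv_not_Tn i l h)
      have hc : Continuous fun r => |Lv l i r| - r := (cont_Lv l i).abs.sub continuous_id
      have h1 : 0 < |Lv l i 0| - 0 := by linarith
      have := nhdsWithin_le_nhds (s := Ioi (0:ℝ)) ((hc.tendsto 0).eventually (lt_mem_nhds h1))
      filter_upwards [this] with r hr _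
      linarith
  have e3 : ∀ᶠ r : ℝ in nhdsWithin 0 (Ioi 0), ∀ (i : Fin k) (l l' : Idx k m), l ∈ Tn k m i →
      l' ∈ Tn k m i → l ≠ l' → ¬ Same l l' → cr l l' r ≠ 0 := by
    refine Filter.eventually_all.2 fun i => Filter.eventually_all.2 fun l =>
      Filter.eventually_all.2 fun l' => ?_
    by_cases h : l ∈ Tn k m i ∧ l' ∈ Tn k m i ∧ l ≠ l' ∧ ¬ Same l l'
    · obtain ⟨h1, h2, h3, h4⟩ := h
      have h0 := cr_zero_ne i l l' h1 h2 h3 h4
      have := nhdsWithin_le_nhds (s := Ioi (0:ℝ))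
        (((cont_cr l l').tendsto 0).eventually (isOpen_ne.mem_nhds h0))
      filter_upwards [this] with r hr _ _ _ _
      exact hr
    · exact Filter.Eventually.of_forall fun r a1 a2 a3 a4 => absurd ⟨a1, a2, a3, a4⟩ h
  obtain ⟨r, ⟨⟨⟨h1, h2⟩, h3⟩, h4⟩⟩ := (((e1.and e2).and e3).and self_mem_nhdsWithin).exists
  exact ⟨r, h4, h1, h2, h3⟩

end Pool.Agent.Y628.LA
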