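import Mathlib

/-!
# Line arrangements in the real projective plane: definitions

The real projective plane is `Projectivization ℝ (Fin 3 → ℝ)` with the quotient topology.
-/

namespace Pool.Agent.Y628.LA

/-- The quotient topology on the real projective plane: the finest topology for which the
map sending a nonzero vector to the line it spans is continuous. -/
noncomputable instance topP2 : TopologicalSpace (Projectivization ℝ (Fin 3 → ℝ)) :=
  TopologicalSpace.coinduced
    (fun v : {v : Fin 3 → ℝ // v ≠ 0} => Projectivization.mk ℝ (v : Fin 3 → ℝ) v.2) inferInstance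

/-- A (projective) line: the set of points `[x₀ : x₁ : x₂]` with
`a₀ x₀ + a₁ x₁ + a₂ x₂ = 0` for a nonzero coefficient vector `a`. -/
def IsLine (L : Set (Projectivization ℝ (Fin 3 → ℝ))) : Prop :=
  ∃ a : Fin 3 → ℝ, a ≠ 0 ∧ L = {p | a ⬝ᵥ p.rep = 0}

/-- `A` is a simple arrangement: a finite set of at least three lines which do not all pass
through a common point, and no three of which pass through a common point. -/
structure IsSimpleArrangement (A : Finset (Set (Projectivization ℝ (Fin 3 → ℝ)))) : Prop where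
  line : ∀ L ∈ A, IsLine L
  three_le : 3 ≤ A.card
  not_concurrent : ¬ ∃ p, ∀ L ∈ A, p ∈ L
  simple : ∀ L₁ ∈ A, ∀ L₂ ∈ A, ∀ L₃ ∈ A, L₁ ≠ L₂ → L₁ ≠ L₃ → L₂ ≠ L₃ →
    ¬ ∃ p, p ∈ L₁ ∧ p ∈ L₂ ∧ p ∈ L₃

/-- The faces of `A`: the connected components of the complement of the union of the lines. -/
def IsFace (A : Finset (Set (Projectivization ℝ (Fin 3 → ℝ))))
    (F : Set (Projectivization ℝ (Fin 3 → ℝ))) : Prop :=
  ∃ p : Projectivization ℝ (Fin 3 → ℝ), (∀ L ∈ A, p ∉ L) ∧
    F = connectedComponentIn {q | ∀ L ∈ A, q ∉ L} p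

/-- The edges of `A` on the line `L`: the connected components of `L` minus the other lines. -/
def IsEdgeOn (A : Finset (Set (Projectivization ℝ (Fin 3 → ℝ))))
    (L e : Set (Projectivization ℝ (Fin 3 → ℝ))) : Prop :=
  ∃ p : Projectivization ℝ (Fin 3 → ℝ), (p ∈ L ∧ ∀ L' ∈ A, L' ≠ L → p ∉ L') ∧
    e = connectedComponentIn {q | q ∈ L ∧ ∀ L' ∈ A, L' ≠ L → q ∉ L'} p

/-- The number of sides of a face `F` of `A` (`F` is a `q`-gon for `q = sides A F`): the number
of lines of `A` which contain an edge of `A` lying in the boundary of `F`. -/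
noncomputable def sides (A : Finset (Set (Projectivization ℝ (Fin 3 → ℝ))))
    (F : Set (Projectivization ℝ (Fin 3 → ℝ))) : ℕ :=
  Set.ncard {L | L ∈ A ∧ ∃ e, IsEdgeOn A L e ∧ e ⊆ frontier F}

end Pool.Agent.Y628.LA
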