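import Pool.Agent.Y628.LA.Top

namespace Pool.Agent.Y628.LA

open Set

/-- the line with coefficient vector `a` -/
def Ln (a : Fin 3 → ℝ) : Set (Projectivization ℝ (Fin 3 → ℝ)) := {p | a ⬝ᵥ p.rep = 0}

theorem mk_mem_Ln {w : Fin 3 → ℝ} (hw : w ≠ 0) (a : Fin 3 → ℝ) :
    Projectivization.mk ℝ w hw ∈ Ln a ↔ a ⬝ᵥ w = 0 := dot_rep_eq_zero hw a

/-- the family `a` of coefficient vectors enumerates the arrangement `A` -/
structure Enum {ι : Type} (A : Finset (Set (Projectivization ℝ (Fin 3 → ℝ))))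
    (a : ι → Fin 3 → ℝ) : Prop where
  mem : ∀ L, L ∈ A ↔ ∃ i, L = Ln (a i)
  inj : Function.Injective fun i => Ln (a i)

/-- the line `i` bounds the face of `x` -/
def Bd {ι : Type} (a : ι → Fin 3 → ℝ) (x : Fin 3 → ℝ) (i : ι) : Prop :=
  ∃ u : Fin 3 → ℝ, (a i ⬝ᵥ x) * (a i ⬝ᵥ u) < 0 ∧ ∀ j, j ≠ i → 0 < (a j ⬝ᵥ x) * (a j ⬝ᵥ u)

variable {ι : Type} {A : Finset (Set (Projectivization ℝ (Fin 3 → ℝ)))} {a : ι → Fin 3 → ℝ}

theorem Enum.compl_iff (hA : Enum A a) (p : Projectivization ℝ (Fin 3 → ℝ)) :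
    (∀ L ∈ A, p ∉ L) ↔ ∀ i, a i ⬝ᵥ p.rep ≠ 0 := by
  constructor
  · intro h i hi
    exact h (Ln (a i)) ((hA.mem _).2 ⟨i, rfl⟩) hi
  · intro h L hL hp
    obtain ⟨i, rfl⟩ := (hA.mem L).1 hL
    exact h i hp

theorem ne_zero_of_dot {x : Fin 3 → ℝ} {b : Fin 3 → ℝ} (h : b ⬝ᵥ x ≠ 0) : x ≠ 0 := by
  rintro rfl
  exact h (dotProduct_zero b)

theorem mk_compl_iff (hA : Enum A a) {x : Fin 3 → ℝ} (hx : x ≠ 0) :
    (∀ L ∈ A, Projectivization.mk ℝ x hx ∉ L) ↔ ∀ i, a i ⬝ᵥ x ≠ 0 := by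
  rw [hA.compl_iff]
  constructor
  · intro h i hi
    exact h i ((dot_rep_eq_zero hx _).2 hi)
  · intro h i hi
    exact h i ((dot_rep_eq_zero hx _).1 hi)

/-- The face of the point `x`, in terms of signs. -/
theorem mem_face_iff (hA : Enum A a) [Nonempty ι] {x : Fin 3 → ℝ} (hx : x ≠ 0)
    (hax : ∀ i, a i ⬝ᵥ x ≠ 0) (p : Projectivization ℝ (Fin 3 → ℝ)) :
    p ∈ connectedComponentIn {q | ∀ L ∈ A, q ∉ L} (Projectivization.mk ℝ x hx) ↔
      ∃ y : Fin 3 → ℝ, ∃ hy : y ≠ 0, p = Projectivization.mk ℝ y hy ∧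
        ∀ i, 0 < (a i ⬝ᵥ x) * (a i ⬝ᵥ y) := by
  have hxU : Projectivization.mk ℝ x hx ∈ {q | ∀ L ∈ A, q ∉ L} := (mk_compl_iff hA hx).2 hax
  constructor
  · intro hp
    obtain ⟨i₀⟩ := (inferInstance : Nonempty ι)
    have hsub := connectedComponentIn_subset {q | ∀ L ∈ A, q ∉ L} (Projectivization.mk ℝ x hx)
    obtain ⟨y, hy, hpy, hs⟩ := rep_of_preconnected
      (isPreconnected_connectedComponentIn (x := Projectivization.mk ℝ x hx)
        (F := {q | ∀ L ∈ A, q ∉ L})) (fun _ : ι => True) a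
      (fun j _ q hq => (hA.compl_iff q).1 (hsub hq) j) i₀ trivial hx
      (mem_connectedComponentIn hxU) hp
    exact ⟨y, hy, hpy, fun i => hs i trivial⟩
  · rintro ⟨y, hy, rfl, hs⟩
    obtain ⟨i₀⟩ := (inferInstance : Nonempty ι)
    -- the segment from `x` to `y`
    have hseg : ∀ t : unitInterval, ∀ i, 0 < (a i ⬝ᵥ x) *
        (a i ⬝ᵥ ((1 - (t : ℝ)) • x + (t : ℝ) • y)) := by
      intro t i
      rw [dotProduct_add, dotProduct_smul, dotProduct_smul, smul_eq_mul, smul_eq_mul]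
      have h1 := hs i
      have h2 : 0 < (a i ⬝ᵥ x) * (a i ⬝ᵥ x) := mul_self_pos.2 (hax i)
      have ht0 : 0 ≤ (t : ℝ) := t.2.1
      have ht1 : (t : ℝ) ≤ 1 := t.2.2
      rcases eq_or_lt_of_le ht0 with h0 | h0
      · rw [← h0]; nlinarith
      · nlinarith [mul_pos h0 h1, mul_nonneg (sub_nonneg.2 ht1) h2.le]
    have hne : ∀ t : unitInterval, ((1 - (t : ℝ)) • x + (t : ℝ) • y) ≠ 0 := fun t h0 => by
      have := hseg t i₀
      rw [h0, dotProduct_zero, mul_zero] at this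
      exact lt_irrefl _ this
    have hcont : Continuous fun t : unitInterval =>
        Projectivization.mk ℝ ((1 - (t : ℝ)) • x + (t : ℝ) • y) (hne t) := by
      have h1 : Continuous fun t : unitInterval =>
          (⟨(1 - (t : ℝ)) • x + (t : ℝ) • y, hne t⟩ : {v : Fin 3 → ℝ // v ≠ 0}) := by
        apply Continuous.subtype_mk
        fun_prop
      exact continuous_mkV.comp h1
    have hpre : IsPreconnected (range fun t : unitInterval =>
        Projectivization.mk ℝ ((1 - (t : ℝ)) • x + (t : ℝ) • y) (hne t)) :=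
      isPreconnected_range hcont
    have hxin : Projectivization.mk ℝ x hx ∈ range fun t : unitInterval =>
        Projectivization.mk ℝ ((1 - (t : ℝ)) • x + (t : ℝ) • y) (hne t) := by
      refine ⟨0, ?_⟩
      simp
    have hsubU : (range fun t : unitInterval =>
        Projectivization.mk ℝ ((1 - (t : ℝ)) • x + (t : ℝ) • y) (hne t)) ⊆
        {q | ∀ L ∈ A, q ∉ L} := by
      rintro _ ⟨t, rfl⟩
      refine (mk_compl_iff hA (hne t)).2 fun i h0 => ?_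
      have := hseg t i
      rw [h0, mul_zero] at this
      exact lt_irrefl _ this
    refine hpre.subset_connectedComponentIn hxin hsubU ⟨1, ?_⟩
    simp

/-- faces are open -/
theorem isOpen_face (hA : Enum A a) [Finite ι] [Nonempty ι] {x : Fin 3 → ℝ} (hx : x ≠ 0)
    (hax : ∀ i, a i ⬝ᵥ x ≠ 0) :
    IsOpen (connectedComponentIn {q | ∀ L ∈ A, q ∉ L} (Projectivization.mk ℝ x hx)) := by
  have : connectedComponentIn {q | ∀ L ∈ A, q ∉ L} (Projectivization.mk ℝ x hx) =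
      ⋂ i : ι, ⋂ j : ι, Pr (((a i ⬝ᵥ x) * (a j ⬝ᵥ x)) • a i) (a j) := by
    ext p
    rw [mem_face_iff hA hx hax]
    simp only [mem_iInter]
    constructor
    · rintro ⟨y, hy, rfl, hs⟩ i j
      rw [mem_Pr_mk, smul_dotProduct, smul_eq_mul]
      nlinarith [mul_pos (hs i) (hs j)]
    · intro h
      obtain ⟨i₀⟩ := (inferInstance : Nonempty ι)
      have hp0 : ∀ i, a i ⬝ᵥ p.rep ≠ 0 := by
        intro i hi
        have := h i i
        simp only [Pr, mem_ofPred_eq, hi, mul_zero, lt_irrefl] at this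
      set c : ℝ := (a i₀ ⬝ᵥ x) * (a i₀ ⬝ᵥ p.rep) with hc
      have hc0 : c ≠ 0 := mul_ne_zero (hax _) (hp0 _)
      refine ⟨c • p.rep, smul_ne_zero hc0 p.rep_nonzero, ?_, fun i => ?_⟩
      · conv_lhs => rw [← p.mk_rep]
        rw [Projectivization.mk_eq_mk_iff']
        exact ⟨c⁻¹, by rw [smul_smul, inv_mul_cancel₀ hc0, one_smul]⟩
      · have := h i i₀
        simp only [Pr, mem_ofPred_eq, smul_dotProduct, smul_eq_mul] at this
        rw [dotProduct_smul, smul_eq_mul, hc]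
        nlinarith
  rw [this]
  exact isOpen_iInter_of_finite fun i => isOpen_iInter_of_finite fun j => isOpen_Pr _ _

theorem Bd.of_closure (hA : Enum A a) [Finite ι] {x w : Fin 3 → ℝ} (hx : x ≠ 0)
    (hax : ∀ i, a i ⬝ᵥ x ≠ 0) (hw : w ≠ 0) (i : ι) (hi : a i ⬝ᵥ w = 0)
    (hj : ∀ j, j ≠ i → a j ⬝ᵥ w ≠ 0) (hne : ∃ j, j ≠ i)
    (hcl : Projectivization.mk ℝ w hw ∈ closure
      (connectedComponentIn {q | ∀ L ∈ A, q ∉ L} (Projectivization.mk ℝ x hx))) :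
    Bd a x i := by
  have : Nonempty ι := ⟨i⟩
  obtain ⟨j₀, hj₀⟩ := hne
  -- all signs relative to j₀ agree
  have key : ∀ j, j ≠ i → 0 < ((a j ⬝ᵥ x) * (a j₀ ⬝ᵥ x)) * ((a j ⬝ᵥ w) * (a j₀ ⬝ᵥ w)) := by
    intro j hji
    by_contra hcon
    have hneg : ((a j ⬝ᵥ x) * (a j₀ ⬝ᵥ x)) * ((a j ⬝ᵥ w) * (a j₀ ⬝ᵥ w)) < 0 :=
      lt_of_le_of_ne (not_lt.1 hcon)
        (mul_ne_zero (mul_ne_zero (hax _) (hax _)) (mul_ne_zero (hj _ hji) (hj _ hj₀)))
    have hmem : Projectivization.mk ℝ w hw ∈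
        Pr (-(((a j ⬝ᵥ x) * (a j₀ ⬝ᵥ x)) • a j)) (a j₀) := by
      rw [mem_Pr_mk, neg_dotProduct, smul_dotProduct, smul_eq_mul]
      nlinarith
    obtain ⟨z, hz1, hz2⟩ := mem_closure_iff.1 hcl _ (isOpen_Pr _ _) hmem
    rw [mem_face_iff hA hx hax] at hz2
    obtain ⟨y, hy, rfl, hs⟩ := hz2
    rw [mem_Pr_mk, neg_dotProduct, smul_dotProduct, smul_eq_mul] at hz1
    nlinarith [mul_pos (hs j) (hs j₀)]
  -- the representative with positive signs
  set c : ℝ := (a j₀ ⬝ᵥ x) * (a j₀ ⬝ᵥ w) with hc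
  have hc0 : c ≠ 0 := mul_ne_zero (hax _) (hj _ hj₀)
  have hpos : ∀ j, j ≠ i → 0 < (a j ⬝ᵥ x) * (a j ⬝ᵥ (c • w)) := by
    intro j hji
    rw [dotProduct_smul, smul_eq_mul, hc]
    nlinarith [key j hji]
  have hz : a i ⬝ᵥ (c • w) = 0 := by rw [dotProduct_smul, hi, smul_zero]
  -- move a little in the direction `-x`
  have hev : ∀ᶠ t : ℝ in nhdsWithin 0 (Ioi 0), ∀ j : ι, j ≠ i →
      0 < (a j ⬝ᵥ x) * (a j ⬝ᵥ (c • w - t • x)) := by
    rw [Filter.eventually_all]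
    intro j
    by_cases hji : j = i
    · exact Filter.Eventually.of_forall fun t h => absurd hji h
    have hc1 : Continuous fun t : ℝ => (a j ⬝ᵥ x) * (a j ⬝ᵥ (c • w - t • x)) := by
      have : (fun t : ℝ => (a j ⬝ᵥ x) * (a j ⬝ᵥ (c • w - t • x))) =
          fun t : ℝ => (a j ⬝ᵥ x) * (a j ⬝ᵥ (c • w) - t * (a j ⬝ᵥ x)) := by
        funext t
        rw [dotProduct_sub, dotProduct_smul t, smul_eq_mul]
      rw [this]
      fun_prop
    have h0 : 0 < (a j ⬝ᵥ x) * (a j ⬝ᵥ (c • w - (0 : ℝ) • x)) := by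
      rw [zero_smul, sub_zero]; exact hpos j hji
    have := (hc1.tendsto 0).eventually (lt_mem_nhds h0)
    filter_upwards [nhdsWithin_le_nhds this] with t ht _
    exact ht
  obtain ⟨t, ht, ht0⟩ := (hev.and self_mem_nhdsWithin).exists
  refine ⟨c • w - t • x, ?_, fun j hji => ht j hji⟩
  rw [dotProduct_sub, hz, dotProduct_smul, smul_eq_mul]
  have : 0 < (a i ⬝ᵥ x) * (a i ⬝ᵥ x) := mul_self_pos.2 (hax i)
  have ht0' : 0 < t := ht0
  nlinarith

/-- characterisation of the lines bounding a face -/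
theorem edge_iff (hA : Enum A a) [Finite ι] {x : Fin 3 → ℝ} (hx : x ≠ 0)
    (hax : ∀ i, a i ⬝ᵥ x ≠ 0) (i : ι) (hne : ∃ j, j ≠ i) :
    (∃ e, IsEdgeOn A (Ln (a i)) e ∧ e ⊆ frontier
      (connectedComponentIn {q | ∀ L ∈ A, q ∉ L} (Projectivization.mk ℝ x hx))) ↔
      Bd a x i := by
  have : Nonempty ι := ⟨i⟩
  have hW : ∀ q : Projectivization ℝ (Fin 3 → ℝ), (q ∈ Ln (a i) ∧ ∀ L' ∈ A, L' ≠ Ln (a i) → q ∉ L') ↔
      (a i ⬝ᵥ q.rep = 0 ∧ ∀ j, j ≠ i → a j ⬝ᵥ q.rep ≠ 0) := by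
    intro q
    constructor
    · rintro ⟨h1, h2⟩
      refine ⟨h1, fun j hj h => h2 (Ln (a j)) ((hA.mem _).2 ⟨j, rfl⟩) (fun he => hj (hA.inj he)) h⟩
    · rintro ⟨h1, h2⟩
      refine ⟨h1, fun L' hL' hne' h => ?_⟩
      obtain ⟨j, rfl⟩ := (hA.mem L').1 hL'
      exact h2 j (fun he => hne' (by rw [he])) h
  constructor
  · rintro ⟨e, ⟨p, hp, rfl⟩, hsub⟩
    have hpe : p ∈ connectedComponentIn {q | q ∈ Ln (a i) ∧ ∀ L' ∈ A, L' ≠ Ln (a i) → q ∉ L'} p :=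
      mem_connectedComponentIn hp
    have hpcl := frontier_subset_closure (hsub hpe)
    have hp' := (hW p).1 hp
    rw [← p.mk_rep] at hpcl
    exact Bd.of_closure hA hx hax p.rep_nonzero i hp'.1 hp'.2 hne hpcl
  · rintro ⟨u, hu, huj⟩
    obtain ⟨j₀, hj₀⟩ := hne
    -- the crossing point
    set w : Fin 3 → ℝ := (-(a i ⬝ᵥ x) * (a i ⬝ᵥ u)) • x + ((a i ⬝ᵥ x) * (a i ⬝ᵥ x)) • u with hwdef
    have hwi : a i ⬝ᵥ w = 0 := by
      rw [hwdef, dotProduct_add, dotProduct_smul, dotProduct_smul, smul_eq_mul, smul_eq_mul]; ring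
    have hxx : ∀ j, 0 < (a j ⬝ᵥ x) * (a j ⬝ᵥ x) := fun j => mul_self_pos.2 (hax j)
    have hwj : ∀ j, j ≠ i → 0 < (a j ⬝ᵥ x) * (a j ⬝ᵥ w) := by
      intro j hj
      rw [hwdef, dotProduct_add, dotProduct_smul, dotProduct_smul, smul_eq_mul, smul_eq_mul]
      have h1 : 0 < -(a i ⬝ᵥ x) * (a i ⬝ᵥ u) := by linarith
      have h2 := mul_pos h1 (hxx j)
      have h3 := mul_pos (hxx i) (huj j hj)
      nlinarith
    have hw : w ≠ 0 := fun h0 => by
      have := hwj j₀ hj₀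
      rw [h0, dotProduct_zero, mul_zero] at this
      exact lt_irrefl _ this
    have hwW : Projectivization.mk ℝ w hw ∈
        {q | q ∈ Ln (a i) ∧ ∀ L' ∈ A, L' ≠ Ln (a i) → q ∉ L'} := by
      refine (hW _).2 ⟨(dot_rep_eq_zero hw _).2 hwi, fun j hj h => ?_⟩
      have := hwj j hj
      rw [(dot_rep_eq_zero hw _).1 h, mul_zero] at this
      exact lt_irrefl _ this
    refine ⟨_, ⟨_, hwW, rfl⟩, ?_⟩
    intro p hp
    have hsubW := connectedComponentIn_subset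
      {q | q ∈ Ln (a i) ∧ ∀ L' ∈ A, L' ≠ Ln (a i) → q ∉ L'} (Projectivization.mk ℝ w hw)
    obtain ⟨y, hy, hpy, hs⟩ := rep_of_preconnected
      (isPreconnected_connectedComponentIn (x := Projectivization.mk ℝ w hw)
        (F := {q | q ∈ Ln (a i) ∧ ∀ L' ∈ A, L' ≠ Ln (a i) → q ∉ L'})) (fun j : ι => j ≠ i) a
      (fun j hj q hq => ((hW q).1 (hsubW hq)).2 j hj) j₀ hj₀ hw
      (mem_connectedComponentIn hwW) hp
    have hpL := ((hW p).1 (hsubW hp)).1
    rw [(isOpen_face hA hx hax).frontier_eq]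
    constructor
    · subst hpy
      have hyi : a i ⬝ᵥ y = 0 := (dot_rep_eq_zero hy _).1 hpL
      -- signs of `y` with respect to `x`
      have hsx : ∀ j, j ≠ i → 0 < (a j ⬝ᵥ x) * (a j ⬝ᵥ y) := by
        intro j hj
        have h1 := hs j hj
        have h2 := hwj j hj
        have h3 : 0 < ((a j ⬝ᵥ x) * (a j ⬝ᵥ y)) * ((a j ⬝ᵥ w) * (a j ⬝ᵥ w)) := by
          nlinarith [mul_pos h1 h2]
        have h4 : 0 < (a j ⬝ᵥ w) * (a j ⬝ᵥ w) := by
          refine mul_self_pos.2 fun h => ?_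
          rw [h, mul_zero] at h2
          exact lt_irrefl _ h2
        exact (pos_iff_pos_of_mul_pos h3).2 h4
      have hray : ∀ t : ℝ, 0 < t → ∀ j, 0 < (a j ⬝ᵥ x) * (a j ⬝ᵥ (y + t • x)) := by
        intro t ht j
        rw [dotProduct_add, dotProduct_smul, smul_eq_mul]
        by_cases hj : j = i
        · subst hj
          rw [hyi]
          nlinarith [mul_pos ht (hxx j)]
        · nlinarith [mul_pos ht (hxx j), hsx j hj]
      have h0 : ∀ t : ℝ, 0 ≤ t → y + t • x ≠ 0 := by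
        intro t ht h
        rcases eq_or_lt_of_le ht with h1 | h1
        · rw [← h1, zero_smul, add_zero] at h
          exact hy h
        · have := hray t h1 i
          rw [h, dotProduct_zero, mul_zero] at this
          exact lt_irrefl _ this
      refine mem_closure_of_ray (x := x) hy h0 fun t ht => ?_
      rw [mem_face_iff hA hx hax]
      exact ⟨_, h0 t ht.le, rfl, hray t ht⟩
    · intro hpF
      rw [mem_face_iff hA hx hax] at hpF
      obtain ⟨z, hz, hpz, hzs⟩ := hpF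
      rw [hpz] at hpL
      have := hzs i
      rw [(dot_rep_eq_zero hz _).1 hpL, mul_zero] at this
      exact lt_irrefl _ this

end Pool.Agent.Y628.LA
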