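import Pool.Agent.Y628.LA.Base

namespace Pool.Agent.Y628.LA

open Set

theorem card_Prs (k : ℕ) : 2 * Fintype.card (Prs k) = k * (k - 1) := by
  classical
  have h1 : Fintype.card (Prs k) =
      ((Finset.univ : Finset (Fin k × Fin k)).filter fun p => p.1 < p.2).card :=
    Fintype.card_subtype _
  have h2 : ((Finset.univ : Finset (Fin k × Fin k)).filter fun p => p.2 < p.1).card =
      ((Finset.univ : Finset (Fin k × Fin k)).filter fun p => p.1 < p.2).card := by
    apply Finset.card_bij (fun p _ => p.swap)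
    · intro p hp
      simpa using hp
    · intro p _ q _ h
      exact Prod.swap_injective h
    · intro p hp
      exact ⟨p.swap, by simpa using hp, Prod.swap_swap p⟩
  have h3 : (Finset.univ : Finset (Fin k)).offDiag =
      ((Finset.univ : Finset (Fin k × Fin k)).filter fun p => p.1 < p.2) ∪
      ((Finset.univ : Finset (Fin k × Fin k)).filter fun p => p.2 < p.1) := by
    ext p
    simp only [Finset.mem_offDiag, Finset.mem_univ, true_and, Finset.mem_union, Finset.mem_filter]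
    exact ne_iff_lt_or_gt
  have h4 : Disjoint ((Finset.univ : Finset (Fin k × Fin k)).filter fun p => p.1 < p.2)
      ((Finset.univ : Finset (Fin k × Fin k)).filter fun p => p.2 < p.1) := by
    rw [Finset.disjoint_filter]
    intro p _ h h'
    exact lt_asymm h h'
  have h5 := Finset.offDiag_card (Finset.univ : Finset (Fin k))
  rw [h3, Finset.card_union_of_disjoint h4, h2, Finset.card_univ, Fintype.card_fin] at h5
  rw [h1, Nat.mul_sub, mul_one]
  omega

theorem card_Idx (k m : ℕ) : Fintype.card (Idx k m) = 2 * (k * (k - 1)) + m := by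
  rw [Fintype.card_sum, Fintype.card_prod, Fintype.card_prod, Fintype.card_bool, Fintype.card_fin]
  have := card_Prs k
  omega

open Classical in
theorem sum_Tn (k m : ℕ) (hk : 1 ≤ k) :
    ∑ i : Fin k, (Finset.univ.filter fun l : Idx k m => l ∈ Tn k m i).card =
      4 * (k * (k - 1)) + m := by
  have h1 : ∀ i : Fin k, (Finset.univ.filter fun l : Idx k m => l ∈ Tn k m i).card =
      ∑ l : Idx k m, if l ∈ Tn k m i then 1 else 0 := by
    intro i
    rw [Finset.card_filter]
  rw [Finset.sum_congr rfl fun i _ => h1 i, Finset.sum_comm, Fintype.sum_sum_type]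
  have h2 : ∀ q : Prs k × Bool × Bool, (∑ i : Fin k, if (Sum.inl q : Idx k m) ∈ Tn k m i then 1
      else 0) = 2 := by
    rintro ⟨p, s, e⟩
    rw [← Finset.card_filter]
    have : (Finset.univ.filter fun i : Fin k => (Sum.inl (p, s, e) : Idx k m) ∈ Tn k m i) =
        {p.1.1, p.1.2} := by
      ext i
      simp only [Finset.mem_filter, Finset.mem_univ, true_and, Finset.mem_insert,
        Finset.mem_singleton]
      show (p.1.1 = i ∨ p.1.2 = i) ↔ _
      rw [eq_comm, @eq_comm _ p.1.2 i]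
    rw [this, Finset.card_pair p.2.ne]
  have h3 : ∀ t : Fin m, (∑ i : Fin k, if (Sum.inr t : Idx k m) ∈ Tn k m i then 1
      else 0) = 1 := by
    intro t
    rw [← Finset.card_filter]
    have : (Finset.univ.filter fun i : Fin k => (Sum.inr t : Idx k m) ∈ Tn k m i) =
        {⟨0, by omega⟩} := by
      ext i
      simp only [Finset.mem_filter, Finset.mem_univ, true_and, Finset.mem_singleton]
      show (i : ℕ) = 0 ↔ _
      constructor
      · intro h; exact Fin.ext h
      · intro h; rw [h]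
    rw [this, Finset.card_singleton]
  rw [Finset.sum_congr rfl fun q _ => h2 q, Finset.sum_congr rfl fun t _ => h3 t,
    Finset.sum_const, Finset.sum_const, Finset.card_univ, Finset.card_univ, Fintype.card_prod,
    Fintype.card_prod, Fintype.card_bool, Fintype.card_fin, smul_eq_mul, smul_eq_mul, mul_one]
  have := card_Prs k
  omega

/-- the extremal arrangement -/
theorem lower (k m : ℕ) (hk : 1 ≤ k) (h3 : 3 ≤ 2 * (k * (k - 1)) + m) :
    ∃ (A : Finset (Set (Projectivization ℝ (Fin 3 → ℝ))))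
      (F : Fin k → Set (Projectivization ℝ (Fin 3 → ℝ))),
      IsSimpleArrangement A ∧ A.card = 2 * (k * (k - 1)) + m ∧ Function.Injective F ∧
      (∀ i, IsFace A (F i)) ∧ 4 * (k * (k - 1)) + m ≤ ∑ i, sides A (F i) := by
  classical
  obtain ⟨r, hr, hsm, hnot, hcr⟩ := exists_radius k m
  set a₀ : Idx k m → Fin 3 → ℝ := fun l => ![N1 l r, N2 l r, Hh l r] with ha₀
  set x : Fin k → Fin 3 → ℝ := fun i => ![((i : ℕ) : ℝ), ((i : ℕ) : ℝ) ^ 2, 1] with hxdef
  have hval : ∀ i l, a₀ l ⬝ᵥ x i = Lv l i r := by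
    intro i l
    rw [ha₀, hxdef, dot3, mul_one]
    rfl
  have hx : ∀ i j, a₀ j ⬝ᵥ x i ≠ 0 := by
    intro i l
    rw [hval]
    by_cases hl : l ∈ Tn k m i
    · rw [Lv_Tn i l hl]
      refine mul_ne_zero ?_ hr.ne'
      rcases si_cases i l with h | h <;> rw [h] <;> norm_num
    · intro h0
      have := hnot i l hl
      rw [h0, abs_zero] at this
      linarith
  set T : Fin k → Finset (Idx k m) := fun i => Finset.univ.filter fun l => l ∈ Tn k m i with hTdef
  have hT : ∀ i, ∀ j ∈ T i, Bd a₀ (x i) j := by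
    intro i l hl
    have hl' : l ∈ Tn k m i := by
      rw [hTdef, Finset.mem_filter] at hl; exact hl.2
    exact Bd_of_tangent (fun l => N1 l r) (fun l => N2 l r) (fun l => Hh l r)
      (unit_of_small hsm) (c₁ := ((i : ℕ) : ℝ)) (c₂ := ((i : ℕ) : ℝ) ^ 2) hr (Tn k m i)
      (si i) (fun l _ => si_cases i l) (fun l hl => Lv_Tn i l hl r) (fun l hl => hnot i l hl)
      (fun l hl l' hl' hne => by
        by_cases hs : Same l l'
        · exact same_distinct i l l' hl hne hs hr hsm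
        · exact cr_distinct i l l' (hcr i l l' hl hl' hne hs)) l hl'
  have hpair : ∀ p : Prs k, ((a₀ (Sum.inl (p, false, true)) ⬝ᵥ x p.1.1) *
      (a₀ (Sum.inl (p, false, true)) ⬝ᵥ x p.1.2) < 0) ∧
      0 < ((a₀ (Sum.inl (p, true, true)) ⬝ᵥ x p.1.1) *
      (a₀ (Sum.inl (p, true, true)) ⬝ᵥ x p.1.2)) := by
    intro p
    rw [hval, hval, hval, hval, Lv_first, Lv_first, Lv_second, Lv_second]
    constructor
    · have : sg false = -1 := by simp [sg]
      rw [this]; nlinarith [mul_pos hr hr]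
    · have : sg true = 1 := by simp [sg]
      rw [this]; nlinarith [mul_pos hr hr]
  have hd : ∀ i j, i ≠ j → (∃ l, (a₀ l ⬝ᵥ x i) * (a₀ l ⬝ᵥ x j) < 0) ∧
      ∃ l, 0 < (a₀ l ⬝ᵥ x i) * (a₀ l ⬝ᵥ x j) := by
    intro i j hij
    rcases lt_or_gt_of_ne hij with h | h
    · obtain ⟨h1, h2⟩ := hpair ⟨(i, j), h⟩
      exact ⟨⟨_, h1⟩, _, h2⟩
    · obtain ⟨h1, h2⟩ := hpair ⟨(j, i), h⟩
      exact ⟨⟨_, by rw [mul_comm]; exact h1⟩, _, by rw [mul_comm]; exact h2⟩
  obtain ⟨a, hG, hax, hTa, hda⟩ := perturb a₀ x hx T hT hd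
  obtain ⟨A, F, hA, hc, hF, hf, hs⟩ := realize (by rw [card_Idx]; exact h3) hG x hax T hTa hda
  refine ⟨A, F, hA, by rw [hc, card_Idx], hF, hf, ?_⟩
  rw [← sum_Tn k m hk]
  exact hs

theorem main_n (k n : ℕ) (hk : 1 ≤ k) (h3 : 3 ≤ n) (hn : 2 * k * (k - 1) ≤ n) :
    IsGreatest {S : ℕ | ∃ (A : Finset (Set (Projectivization ℝ (Fin 3 → ℝ))))
      (F : Fin k → Set (Projectivization ℝ (Fin 3 → ℝ))),
      IsSimpleArrangement A ∧ A.card = n ∧ Function.Injective F ∧ (∀ i, IsFace A (F i)) ∧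
      S = ∑ i, sides A (F i)} (n + 2 * k * (k - 1)) := by
  have e : 2 * k * (k - 1) = 2 * (k * (k - 1)) := by ring
  constructor
  · obtain ⟨A, F, hA, hc, hF, hf, hs⟩ := lower k (n - 2 * k * (k - 1)) hk (by rw [← e]; omega)
    refine ⟨A, F, hA, by rw [hc, ← e]; omega, hF, hf, ?_⟩
    have := upper hA F hF hf
    omega
  · rintro S ⟨A, F, hA, hc, hF, hf, rfl⟩
    have := upper hA F hF hf
    omega

theorem main_a (k : ℕ) (hk : 1 ≤ k) :
    IsGreatest {d : ℤ | ∃ (A : Finset (Set (Projectivization ℝ (Fin 3 → ℝ))))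
      (F : Fin k → Set (Projectivization ℝ (Fin 3 → ℝ))),
      IsSimpleArrangement A ∧ Function.Injective F ∧ (∀ i, IsFace A (F i)) ∧
      d = ∑ i, (sides A (F i) : ℤ) - (A.card : ℤ)} (2 * k * (k - 1)) := by
  have hz : ((2 * k * (k - 1) : ℕ) : ℤ) = 2 * (k : ℤ) * ((k : ℤ) - 1) := by
    rw [Nat.cast_mul, Nat.cast_mul, Nat.cast_sub hk]; norm_num
  constructor
  · obtain ⟨⟨A, F, hA, hc, hF, hf, hs⟩, _⟩ := main_n k (2 * k * (k - 1) + 3) hk (by omega) (by omega)
    refine ⟨A, F, hA, hF, hf, ?_⟩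
    have h1 : (∑ i, (sides A (F i) : ℤ)) = ((∑ i, sides A (F i) : ℕ) : ℤ) := by push_cast; rfl
    rw [h1, ← hs, hc, ← hz]
    push_cast
    ring
  · rintro d ⟨A, F, hA, hF, hf, rfl⟩
    have := upper hA F hF hf
    have e : 2 * k * (k - 1) = 2 * (k * (k - 1)) := by ring
    have h1 : (∑ i, (sides A (F i) : ℤ)) = ((∑ i, sides A (F i) : ℕ) : ℤ) := by push_cast; rfl
    rw [h1, ← hz]
    omega

end Pool.Agent.Y628.LA
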