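import Pool.Agent.Y628.LA.Arr

namespace Pool.Agent.Y628.LA

open Set

variable {ι : Type}

theorem dense_det [Fintype ι] {i j k : ι} (hij : i ≠ j) (hik : i ≠ k) (hjk : j ≠ k) :
    Dense {a : ι → Fin 3 → ℝ | (Matrix.of ![a i, a j, a k]).det ≠ 0} := by
  classical
  rw [dense_iff_inter_open]
  rintro O hO ⟨a, ha⟩
  set M : Matrix (Fin 3) (Fin 3) ℝ := Matrix.of ![a i, a j, a k] with hM
  set b : ι → Fin 3 → ℝ := fun l => if l = i then Pi.single 0 1 else if l = j then Pi.single 1 1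
    else if l = k then Pi.single 2 1 else 0 with hb
  have hcont : Continuous fun t : ℝ => a + t • b := by fun_prop
  have hnhds : {t : ℝ | a + t • b ∈ O} ∈ nhds (0 : ℝ) := by
    refine hcont.continuousAt.preimage_mem_nhds (hO.mem_nhds ?_)
    simpa using ha
  have hinf : {t : ℝ | a + t • b ∈ O}.Infinite := infinite_of_mem_nhds 0 hnhds
  have hfin : {t : ℝ | ((-M).charpoly).IsRoot t}.Finite :=
    Polynomial.finite_setOf_isRoot (Matrix.charpoly_monic _).ne_zero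
  obtain ⟨t, ht, ht'⟩ := (hinf.diff hfin).nonempty
  refine ⟨a + t • b, ht, ?_⟩
  have hroot : ((-M).charpoly).eval t ≠ 0 := ht'
  rw [Matrix.eval_charpoly] at hroot
  have he : Matrix.scalar (Fin 3) t - -M = Matrix.of ![(a + t • b) i, (a + t • b) j, (a + t • b) k] := by
    ext p q
    have hbi : b i = Pi.single 0 1 := by simp [hb]
    have hbj : b j = Pi.single 1 1 := by simp [hb, hij.symm]
    have hbk : b k = Pi.single 2 1 := by simp [hb, hik.symm, hjk.symm]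
    fin_cases p <;> fin_cases q <;>
      simp [hM, hbi, hbj, hbk, Matrix.diagonal, add_comm]
  rw [he] at hroot
  exact hroot

theorem exists_gp [Fintype ι] {O : Set (ι → Fin 3 → ℝ)} (hO : IsOpen O) (hne : O.Nonempty) :
    ∃ a ∈ O, GP a := by
  classical
  have hopen : ∀ p : {p : ι × ι × ι // p.1 ≠ p.2.1 ∧ p.1 ≠ p.2.2 ∧ p.2.1 ≠ p.2.2},
      IsOpen {a : ι → Fin 3 → ℝ | (Matrix.of ![a p.1.1, a p.1.2.1, a p.1.2.2]).det ≠ 0} := by
    intro p
    have : Continuous fun a : ι → Fin 3 → ℝ =>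
        (Matrix.of ![a p.1.1, a p.1.2.1, a p.1.2.2]).det := by
      simp only [Matrix.det_fin_three]
      simp only [Matrix.of_apply, Matrix.cons_val]
      fun_prop
    exact isOpen_ne_fun this continuous_const
  have hdense := dense_iInter_of_isOpen hopen fun p => dense_det p.2.1 p.2.2.1 p.2.2.2
  obtain ⟨a, haO, ha⟩ := (dense_iff_inter_open.1 hdense) O hO hne
  refine ⟨a, haO, fun i j k hij hik hjk w h1 h2 h3 => ?_⟩
  have hdet := (mem_iInter.1 ha) ⟨(i, j, k), hij, hik, hjk⟩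
  by_contra hw
  refine hdet (Matrix.exists_mulVec_eq_zero_iff.1 ⟨w, hw, ?_⟩)
  ext p
  fin_cases p
  · simpa [Matrix.mulVec] using h1
  · simpa [Matrix.mulVec] using h2
  · simpa [Matrix.mulVec] using h3

theorem perturb [Fintype ι] (a₀ : ι → Fin 3 → ℝ) {k : ℕ} (x : Fin k → Fin 3 → ℝ)
    (hx : ∀ i j, a₀ j ⬝ᵥ x i ≠ 0) (T : Fin k → Finset ι)
    (hT : ∀ i, ∀ j ∈ T i, Bd a₀ (x i) j)
    (hd : ∀ i j, i ≠ j → (∃ l, (a₀ l ⬝ᵥ x i) * (a₀ l ⬝ᵥ x j) < 0) ∧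
      ∃ l, 0 < (a₀ l ⬝ᵥ x i) * (a₀ l ⬝ᵥ x j)) :
    ∃ a : ι → Fin 3 → ℝ, GP a ∧ (∀ i j, a j ⬝ᵥ x i ≠ 0) ∧ (∀ i, ∀ j ∈ T i, Bd a (x i) j) ∧
      (∀ i j, i ≠ j → (∃ l, (a l ⬝ᵥ x i) * (a l ⬝ᵥ x j) < 0) ∧
      ∃ l, 0 < (a l ⬝ᵥ x i) * (a l ⬝ᵥ x j)) := by
  classical
  choose! u hu using hT
  have hdot : ∀ (l : ι) (z : Fin 3 → ℝ), Continuous fun a : ι → Fin 3 → ℝ => a l ⬝ᵥ z := by
    intro l z
    simp only [dotProduct]
    exact continuous_finsetSum _ fun i _ => Continuous.mul (by fun_prop) continuous_const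
  set O : Set (ι → Fin 3 → ℝ) :=
    (⋂ i : Fin k, ⋂ j : ι, {a | 0 < (a₀ j ⬝ᵥ x i) * (a j ⬝ᵥ x i)}) ∩
    (⋂ i : Fin k, ⋂ j : ι, ⋂ _ : j ∈ T i, {a | (a₀ j ⬝ᵥ x i) * (a j ⬝ᵥ u i j) < 0}) ∩
    (⋂ i : Fin k, ⋂ j : ι, ⋂ _ : j ∈ T i, ⋂ l : ι, ⋂ _ : l ≠ j,
      {a | 0 < (a₀ l ⬝ᵥ x i) * (a l ⬝ᵥ u i j)}) with hO
  have hOo : IsOpen O := by
    refine IsOpen.inter (IsOpen.inter ?_ ?_) ?_
    · exact isOpen_iInter_of_finite fun i => isOpen_iInter_of_finite fun j =>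
        isOpen_lt continuous_const (continuous_const.mul (hdot j (x i)))
    · exact isOpen_iInter_of_finite fun i => isOpen_iInter_of_finite fun j =>
        isOpen_iInter_of_finite fun _ =>
        isOpen_lt (continuous_const.mul (hdot j (u i j))) continuous_const
    · exact isOpen_iInter_of_finite fun i => isOpen_iInter_of_finite fun j =>
        isOpen_iInter_of_finite fun _ => isOpen_iInter_of_finite fun l =>
        isOpen_iInter_of_finite fun _ =>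
        isOpen_lt continuous_const (continuous_const.mul (hdot l (u i j)))
  have hmem : a₀ ∈ O := by
    refine ⟨⟨?_, ?_⟩, ?_⟩
    · simp only [mem_iInter]
      exact fun i j => mul_self_pos.2 (hx i j)
    · simp only [mem_iInter]
      exact fun i j hj => (hu i j hj).1
    · simp only [mem_iInter]
      exact fun i j hj l hl => (hu i j hj).2 l hl
  obtain ⟨a, haO, hG⟩ := exists_gp hOo ⟨a₀, hmem⟩
  obtain ⟨⟨h1, h2⟩, h3⟩ := haO
  simp only [mem_iInter, mem_ofPred_eq] at h1 h2 h3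
  have hax : ∀ i j, a j ⬝ᵥ x i ≠ 0 := by
    intro i j h0
    have := h1 i j
    rw [h0, mul_zero] at this
    exact lt_irrefl _ this
  -- transfer of signs
  have tr : ∀ i l (z : ℝ), 0 < (a₀ l ⬝ᵥ x i) * z → 0 < (a l ⬝ᵥ x i) * z := by
    intro i l z hz
    have h4 : 0 < ((a l ⬝ᵥ x i) * z) * ((a₀ l ⬝ᵥ x i) * (a₀ l ⬝ᵥ x i)) := by
      nlinarith [mul_pos (h1 i l) hz]
    have h5 : 0 < (a₀ l ⬝ᵥ x i) * (a₀ l ⬝ᵥ x i) := mul_self_pos.2 (hx i l)
    exact (pos_iff_pos_of_mul_pos h4).2 h5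
  have trn : ∀ i l (z : ℝ), (a₀ l ⬝ᵥ x i) * z < 0 → (a l ⬝ᵥ x i) * z < 0 := by
    intro i l z hz
    have := tr i l (-z) (by linarith)
    linarith
  refine ⟨a, hG, hax, ?_, ?_⟩
  · intro i j hj
    exact ⟨u i j, trn i j _ (h2 i j hj), fun l hl => tr i l _ (h3 i j hj l hl)⟩
  · intro i j hij
    obtain ⟨⟨l₁, q₁⟩, l₂, q₂⟩ := hd i j hij
    refine ⟨⟨l₁, ?_⟩, l₂, ?_⟩
    · have e1 := trn i l₁ _ q₁
      have e2 := trn j l₁ (a l₁ ⬝ᵥ x i) (by linarith)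
      linarith
    · have e1 := tr i l₂ _ q₂
      have e2 := tr j l₂ (a l₂ ⬝ᵥ x i) (by linarith)
      linarith

end Pool.Agent.Y628.LA
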