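import Pool.Agent.Y628.LA.Pert

namespace Pool.Agent.Y628.LA

open Set

variable {ι : Type} {a : ι → Fin 3 → ℝ}

theorem Bd_of_pt [Finite ι] {x w : Fin 3 → ℝ} (hax : ∀ i, a i ⬝ᵥ x ≠ 0) (i : ι)
    (hi : a i ⬝ᵥ w = 0) (hj : ∀ j, j ≠ i → 0 < (a j ⬝ᵥ x) * (a j ⬝ᵥ w)) : Bd a x i := by
  have hev : ∀ᶠ t : ℝ in nhdsWithin 0 (Ioi 0), ∀ j : ι, j ≠ i →
      0 < (a j ⬝ᵥ x) * (a j ⬝ᵥ (w - t • x)) := by
    rw [Filter.eventually_all]
    intro j
    by_cases hji : j = i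
    · exact Filter.Eventually.of_forall fun t h => absurd hji h
    have hc1 : Continuous fun t : ℝ => (a j ⬝ᵥ x) * (a j ⬝ᵥ (w - t • x)) := by
      have : (fun t : ℝ => (a j ⬝ᵥ x) * (a j ⬝ᵥ (w - t • x))) =
          fun t : ℝ => (a j ⬝ᵥ x) * (a j ⬝ᵥ w - t * (a j ⬝ᵥ x)) := by
        funext t
        rw [dotProduct_sub, dotProduct_smul t, smul_eq_mul]
      rw [this]
      fun_prop
    have h0 : 0 < (a j ⬝ᵥ x) * (a j ⬝ᵥ (w - (0 : ℝ) • x)) := by
      rw [zero_smul, sub_zero]; exact hj j hji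
    have := (hc1.tendsto 0).eventually (lt_mem_nhds h0)
    filter_upwards [nhdsWithin_le_nhds this] with t ht _
    exact ht
  obtain ⟨t, ht, ht0⟩ := (hev.and self_mem_nhdsWithin).exists
  refine ⟨w - t • x, ?_, fun j hji => ht j hji⟩
  rw [dotProduct_sub, hi, dotProduct_smul, smul_eq_mul]
  have : 0 < (a i ⬝ᵥ x) * (a i ⬝ᵥ x) := mul_self_pos.2 (hax i)
  have ht0' : 0 < t := ht0
  nlinarith

theorem dot3 (p q s x y z : ℝ) : ![p, q, s] ⬝ᵥ ![x, y, z] = p * x + q * y + s * z := by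
  simp [dotProduct, Fin.sum_univ_three]

/-- lines tangent to a small circle all bound the face of its centre -/
theorem Bd_of_tangent [Finite ι] (n₁ n₂ h : ι → ℝ) (unit : ∀ l, n₁ l ^ 2 + n₂ l ^ 2 = 1)
    {c₁ c₂ r : ℝ} (hr : 0 < r) (T : Set ι) (σ : ι → ℝ) (hσ : ∀ l ∈ T, σ l = 1 ∨ σ l = -1)
    (hT : ∀ l ∈ T, n₁ l * c₁ + n₂ l * c₂ + h l = σ l * r)
    (hN : ∀ l, l ∉ T → r < |n₁ l * c₁ + n₂ l * c₂ + h l|)
    (hdist : ∀ l ∈ T, ∀ l' ∈ T, l ≠ l' →
      ¬ (σ l * n₁ l = σ l' * n₁ l' ∧ σ l * n₂ l = σ l' * n₂ l')) :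
    ∀ l ∈ T, Bd (fun l => ![n₁ l, n₂ l, h l]) ![c₁, c₂, 1] l := by
  intro l hl
  have hσ2 : ∀ l ∈ T, σ l * σ l = 1 := by
    intro l hl
    rcases hσ l hl with h1 | h1 <;> rw [h1] <;> norm_num
  refine Bd_of_pt (w := ![c₁ - σ l * r * n₁ l, c₂ - σ l * r * n₂ l, 1]) ?_ l ?_ ?_
  · intro i
    rw [dot3, mul_one]
    by_cases hi : i ∈ T
    · rw [hT i hi]
      refine mul_ne_zero ?_ hr.ne'
      rcases hσ i hi with h1 | h1 <;> rw [h1] <;> norm_num
    · intro h0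
      have := hN i hi
      rw [h0, abs_zero] at this
      linarith
  · rw [dot3]
    have h1 := hT l hl
    have h2 := unit l
    have : n₁ l * (c₁ - σ l * r * n₁ l) + n₂ l * (c₂ - σ l * r * n₂ l) + h l * 1 =
        (n₁ l * c₁ + n₂ l * c₂ + h l) - σ l * r * (n₁ l ^ 2 + n₂ l ^ 2) := by ring
    rw [this, h1, h2]; ring
  · intro j hj
    rw [dot3, dot3]
    have e1 : n₁ j * (c₁ - σ l * r * n₁ l) + n₂ j * (c₂ - σ l * r * n₂ l) + h j * 1 =
        (n₁ j * c₁ + n₂ j * c₂ + h j) - σ l * r * (n₁ j * n₁ l + n₂ j * n₂ l) := by ring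
    rw [e1, mul_one]
    by_cases hjT : j ∈ T
    · rw [hT j hjT]
      have hd := hdist l hl j hjT hj.symm
      have s1 := hσ2 l hl
      have s2 := hσ2 j hjT
      have u1 := unit l
      have u2 := unit j
      have hpos : 0 < (σ l * n₁ l - σ j * n₁ j) ^ 2 + (σ l * n₂ l - σ j * n₂ j) ^ 2 := by
        by_contra hcon
        have a1 := sq_nonneg (σ l * n₁ l - σ j * n₁ j)
        have a2 := sq_nonneg (σ l * n₂ l - σ j * n₂ j)
        have b1 : (σ l * n₁ l - σ j * n₁ j) ^ 2 = 0 := by linarith [not_lt.1 hcon]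
        have b2 : (σ l * n₂ l - σ j * n₂ j) ^ 2 = 0 := by linarith [not_lt.1 hcon]
        exact hd ⟨sub_eq_zero.1 (pow_eq_zero_iff (two_ne_zero) |>.1 b1),
          sub_eq_zero.1 (pow_eq_zero_iff (two_ne_zero) |>.1 b2)⟩
      have e2 : (σ l * n₁ l - σ j * n₁ j) ^ 2 + (σ l * n₂ l - σ j * n₂ j) ^ 2 =
          (σ l * σ l) * (n₁ l ^ 2 + n₂ l ^ 2) + (σ j * σ j) * (n₁ j ^ 2 + n₂ j ^ 2) -
          2 * (σ l * σ j * (n₁ j * n₁ l + n₂ j * n₂ l)) := by ring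
      rw [e2, s1, s2, u1, u2] at hpos
      have e3 : σ j * r * (σ j * r - σ l * r * (n₁ j * n₁ l + n₂ j * n₂ l)) =
          (r * r) * ((σ j * σ j) - σ l * σ j * (n₁ j * n₁ l + n₂ j * n₂ l)) := by ring
      rw [e3, s2]
      exact mul_pos (mul_pos hr hr) (by linarith)
    · have hv := hN j hjT
      set v := n₁ j * c₁ + n₂ j * c₂ + h j with hvdef
      have hg : |σ l * r * (n₁ j * n₁ l + n₂ j * n₂ l)| ≤ r := by
        have s1 : |σ l| = 1 := by
          rcases hσ l hl with h1 | h1 <;> rw [h1] <;> simp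
        rw [abs_mul, abs_mul, s1, one_mul, abs_of_pos hr]
        have : |n₁ j * n₁ l + n₂ j * n₂ l| ≤ 1 := by
          rw [abs_le]
          have u1 := unit l
          have u2 := unit j
          constructor
          · nlinarith [sq_nonneg (n₁ j + n₁ l), sq_nonneg (n₂ j + n₂ l)]
          · nlinarith [sq_nonneg (n₁ j - n₁ l), sq_nonneg (n₂ j - n₂ l)]
        nlinarith
      set g := σ l * r * (n₁ j * n₁ l + n₂ j * n₂ l) with hgdef
      have h1 : v * g ≤ |v| * r := by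
        calc v * g ≤ |v * g| := le_abs_self _
          _ = |v| * |g| := abs_mul _ _
          _ ≤ |v| * r := mul_le_mul_of_nonneg_left hg (abs_nonneg _)
      have h2 : |v| * r < |v| * |v| := mul_lt_mul_of_pos_left hv (by linarith)
      have h3 : |v| * |v| = v * v := abs_mul_abs_self v
      have h4 : v * (v - g) = v * v - v * g := by ring
      rw [h4]; linarith

end Pool.Agent.Y628.LA
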