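import Pool.Agent.Y628.LA.Defs

namespace Pool.Agent.Y628.LA

open Set Projectivization

theorem continuous_mkV : Continuous
    (fun v : {v : Fin 3 → ℝ // v ≠ 0} => Projectivization.mk ℝ (v : Fin 3 → ℝ) v.2) :=
  continuous_coinduced_rng

theorem isOpen_iff {s : Set (Projectivization ℝ (Fin 3 → ℝ))} :
    IsOpen s ↔ IsOpen ((fun v : {v : Fin 3 → ℝ // v ≠ 0} =>
      Projectivization.mk ℝ (v : Fin 3 → ℝ) v.2) ⁻¹' s) := isOpen_coinduced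

theorem dot_rep {v : Fin 3 → ℝ} (hv : v ≠ 0) :
    ∃ c : ℝ, c ≠ 0 ∧ ∀ a : Fin 3 → ℝ, a ⬝ᵥ (Projectivization.mk ℝ v hv).rep = c * (a ⬝ᵥ v) := by
  obtain ⟨c, hc⟩ := Projectivization.exists_smul_eq_mk_rep ℝ v hv
  refine ⟨(c : ℝ), c.ne_zero, fun a => ?_⟩
  rw [← hc, Units.smul_def, dotProduct_smul, smul_eq_mul]

theorem dot_rep_eq_zero {v : Fin 3 → ℝ} (hv : v ≠ 0) (a : Fin 3 → ℝ) :
    a ⬝ᵥ (Projectivization.mk ℝ v hv).rep = 0 ↔ a ⬝ᵥ v = 0 := by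
  obtain ⟨c, hc, h⟩ := dot_rep hv
  rw [h]; simp [hc]

/-- the two forms have the same (nonzero) sign at the point -/
def Pr (a b : Fin 3 → ℝ) : Set (Projectivization ℝ (Fin 3 → ℝ)) :=
  {p | 0 < (a ⬝ᵥ p.rep) * (b ⬝ᵥ p.rep)}

theorem mem_Pr_mk {v : Fin 3 → ℝ} (hv : v ≠ 0) (a b : Fin 3 → ℝ) :
    Projectivization.mk ℝ v hv ∈ Pr a b ↔ 0 < (a ⬝ᵥ v) * (b ⬝ᵥ v) := by
  obtain ⟨c, hc, h⟩ := dot_rep hv
  simp only [Pr, mem_ofPred_eq, h]
  have h2 : c * (a ⬝ᵥ v) * (c * (b ⬝ᵥ v)) = (c * c) * ((a ⬝ᵥ v) * (b ⬝ᵥ v)) := by ring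
  rw [h2]
  have : 0 < c * c := mul_self_pos.2 hc
  exact mul_pos_iff_of_pos_left this

theorem isOpen_Pr (a b : Fin 3 → ℝ) : IsOpen (Pr a b) := by
  rw [isOpen_iff]
  have : ((fun v : {v : Fin 3 → ℝ // v ≠ 0} =>
      Projectivization.mk ℝ (v : Fin 3 → ℝ) v.2) ⁻¹' (Pr a b)) =
      {v : {v : Fin 3 → ℝ // v ≠ 0} | 0 < (a ⬝ᵥ (v : Fin 3 → ℝ)) * (b ⬝ᵥ (v : Fin 3 → ℝ))} := by
    ext v
    exact mem_Pr_mk v.2 a b
  rw [this]
  have hc : ∀ a : Fin 3 → ℝ, Continuous fun v : {v : Fin 3 → ℝ // v ≠ 0} =>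
      a ⬝ᵥ (v : Fin 3 → ℝ) := by
    intro a
    simp only [dotProduct]
    exact continuous_finsetSum _ fun i _ => continuous_const.mul
      ((continuous_apply i).comp continuous_subtype_val)
  exact isOpen_lt continuous_const ((hc a).mul (hc b))

theorem Pr_neg (a b : Fin 3 → ℝ) (p : Projectivization ℝ (Fin 3 → ℝ)) :
    p ∈ Pr (-a) b ↔ (a ⬝ᵥ p.rep) * (b ⬝ᵥ p.rep) < 0 := by
  simp only [Pr, mem_ofPred_eq, neg_dotProduct]
  constructor <;> intro h <;> nlinarith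

/-- On a preconnected set where the two forms do not vanish, the sign of the product is
constant. -/
theorem Pr_const {S : Set (Projectivization ℝ (Fin 3 → ℝ))} (hS : IsPreconnected S)
    {a b : Fin 3 → ℝ} (ha : ∀ p ∈ S, a ⬝ᵥ p.rep ≠ 0) (hb : ∀ p ∈ S, b ⬝ᵥ p.rep ≠ 0)
    {p q : Projectivization ℝ (Fin 3 → ℝ)} (hp : p ∈ S) (hq : q ∈ S) (h : p ∈ Pr a b) :
    q ∈ Pr a b := by
  by_contra hq'
  have hcov : S ⊆ Pr a b ∪ Pr (-a) b := by
    intro x hx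
    rcases lt_or_gt_of_ne (mul_ne_zero (ha x hx) (hb x hx)) with h1 | h1
    · exact Or.inr ((Pr_neg a b x).2 h1)
    · exact Or.inl h1
  have hq2 : q ∈ Pr (-a) b := (hcov hq).resolve_left hq'
  obtain ⟨z, hz, hz1, hz2⟩ := hS _ _ (isOpen_Pr a b) (isOpen_Pr (-a) b) hcov ⟨p, hp, h⟩ ⟨q, hq, hq2⟩
  rw [Pr_neg] at hz2
  have : 0 < (a ⬝ᵥ z.rep) * (b ⬝ᵥ z.rep) := hz1
  linarith

/-- On a preconnected set where a nonempty family of forms does not vanish, all points have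
representatives with the same signs. -/
theorem rep_of_preconnected {ι : Type} {S : Set (Projectivization ℝ (Fin 3 → ℝ))}
    (hS : IsPreconnected S) (P : ι → Prop) (b : ι → Fin 3 → ℝ)
    (hb : ∀ j, P j → ∀ p ∈ S, b j ⬝ᵥ p.rep ≠ 0) (j₀ : ι) (hj₀ : P j₀)
    {w : Fin 3 → ℝ} (hw : w ≠ 0) (hwS : Projectivization.mk ℝ w hw ∈ S)
    {p : Projectivization ℝ (Fin 3 → ℝ)} (hp : p ∈ S) :
    ∃ y : Fin 3 → ℝ, ∃ hy : y ≠ 0, p = Projectivization.mk ℝ y hy ∧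
      ∀ j, P j → 0 < (b j ⬝ᵥ w) * (b j ⬝ᵥ y) := by
  have hw0 : ∀ j, P j → b j ⬝ᵥ w ≠ 0 := fun j hj h =>
    hb j hj _ hwS ((dot_rep_eq_zero hw (b j)).2 h)
  have hp0 : ∀ j, P j → b j ⬝ᵥ p.rep ≠ 0 := fun j hj => hb j hj p hp
  set c : ℝ := (b j₀ ⬝ᵥ w) * (b j₀ ⬝ᵥ p.rep) with hc
  have hc0 : c ≠ 0 := mul_ne_zero (hw0 _ hj₀) (hp0 _ hj₀)
  have hy : c • p.rep ≠ 0 := smul_ne_zero hc0 p.rep_nonzero
  refine ⟨c • p.rep, hy, ?_, fun j hj => ?_⟩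
  · conv_lhs => rw [← p.mk_rep]
    rw [Projectivization.mk_eq_mk_iff']
    exact ⟨c⁻¹, by rw [smul_smul, inv_mul_cancel₀ hc0, one_smul]⟩
  · rw [dotProduct_smul, smul_eq_mul]
    -- the product (b j · w)(b j₀ · w)(b j · p)(b j₀ · p) is positive
    have key : 0 < ((b j ⬝ᵥ w) * (b j₀ ⬝ᵥ w)) * ((b j ⬝ᵥ p.rep) * (b j₀ ⬝ᵥ p.rep)) := by
      rcases lt_or_gt_of_ne (mul_ne_zero (hw0 j hj) (hw0 j₀ hj₀)) with h1 | h1
      · have hm : Projectivization.mk ℝ w hw ∈ Pr (-(b j)) (b j₀) := by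
          rw [mem_Pr_mk, neg_dotProduct]; nlinarith
        have h2 := Pr_const hS (a := -(b j)) (b := b j₀)
          (fun q hq => by rw [neg_dotProduct]; exact neg_ne_zero.2 (hb j hj q hq))
          (fun q hq => hb j₀ hj₀ q hq) hwS hp hm
        rw [Pr_neg] at h2
        exact mul_pos_of_neg_of_neg h1 h2
      · have hm : Projectivization.mk ℝ w hw ∈ Pr (b j) (b j₀) := by
          rw [mem_Pr_mk]; exact h1
        have h2 := Pr_const hS (a := b j) (b := b j₀)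
          (fun q hq => hb j hj q hq)
          (fun q hq => hb j₀ hj₀ q hq) hwS hp hm
        exact mul_pos h1 h2
    rw [hc]
    nlinarith [key]

/-- Continuity along a ray, used for closure arguments. -/
theorem mem_closure_of_ray {F : Set (Projectivization ℝ (Fin 3 → ℝ))} {x y : Fin 3 → ℝ}
    (hy : y ≠ 0) (h0 : ∀ t : ℝ, 0 ≤ t → y + t • x ≠ 0)
    (hF : ∀ t : ℝ, ∀ ht : 0 < t, Projectivization.mk ℝ (y + t • x) (h0 t ht.le) ∈ F) :
    Projectivization.mk ℝ y hy ∈ closure F := by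
  have hg : ∀ s : ℝ, y + (s * s) • x ≠ 0 := fun s => h0 _ (mul_self_nonneg s)
  have hcont : Continuous fun s : ℝ =>
      Projectivization.mk ℝ (y + (s * s) • x) (hg s) := by
    have h1 : Continuous fun s : ℝ => (⟨y + (s * s) • x, hg s⟩ : {v : Fin 3 → ℝ // v ≠ 0}) := by
      apply Continuous.subtype_mk
      fun_prop
    exact continuous_mkV.comp h1
  have ht : Filter.Tendsto (fun s : ℝ =>
      Projectivization.mk ℝ (y + (s * s) • x) (hg s)) (nhdsWithin 0 {0}ᶜ)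
      (nhds (Projectivization.mk ℝ (y + ((0:ℝ) * 0) • x) (hg 0))) :=
    (hcont.tendsto 0).mono_left nhdsWithin_le_nhds
  have he : Projectivization.mk ℝ (y + ((0:ℝ) * 0) • x) (hg 0) = Projectivization.mk ℝ y hy := by
    congr 1
    simp
  rw [he] at ht
  refine mem_closure_of_tendsto ht ?_
  filter_upwards [self_mem_nhdsWithin] with s hs
  exact hF (s * s) (mul_self_pos.2 hs)

end Pool.Agent.Y628.LA
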