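import Pool.Agent.Y628.LA.Face

namespace Pool.Agent.Y628.LA

open Set

/-- general position: no three of the lines are concurrent -/
def GP {ι : Type} (a : ι → Fin 3 → ℝ) : Prop :=
  ∀ i j k : ι, i ≠ j → i ≠ k → j ≠ k → ∀ w : Fin 3 → ℝ,
    a i ⬝ᵥ w = 0 → a j ⬝ᵥ w = 0 → a k ⬝ᵥ w = 0 → w = 0

theorem exists_coeff {b₁ b₂ b₃ : Fin 3 → ℝ}
    (h : ∀ w : Fin 3 → ℝ, b₁ ⬝ᵥ w = 0 → b₂ ⬝ᵥ w = 0 → b₃ ⬝ᵥ w = 0 → w = 0) (q : Fin 3 → ℝ) :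
    ∃ α β γ : ℝ, ∀ z : Fin 3 → ℝ, q ⬝ᵥ z = α * (b₁ ⬝ᵥ z) + β * (b₂ ⬝ᵥ z) + γ * (b₃ ⬝ᵥ z) := by
  set M : Matrix (Fin 3) (Fin 3) ℝ := Matrix.of ![b₁, b₂, b₃] with hM
  have hdet : M.det ≠ 0 := by
    intro h0
    obtain ⟨v, hv, hv0⟩ := Matrix.exists_mulVec_eq_zero_iff.2 h0
    refine hv (h v ?_ ?_ ?_)
    · have := congrFun hv0 0
      simpa [hM, Matrix.mulVec] using this
    · have := congrFun hv0 1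
      simpa [hM, Matrix.mulVec] using this
    · have := congrFun hv0 2
      simpa [hM, Matrix.mulVec] using this
  have hu : IsUnit M.det := isUnit_iff_ne_zero.2 hdet
  set c : Fin 3 → ℝ := Matrix.vecMul q M⁻¹ with hc
  have hq : Matrix.vecMul c M = q := by
    rw [hc, Matrix.vecMul_vecMul, Matrix.nonsing_inv_mul _ hu, Matrix.vecMul_one]
  refine ⟨c 0, c 1, c 2, fun z => ?_⟩
  rw [← hq, ← Matrix.dotProduct_mulVec]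
  have hz : Matrix.mulVec M z = ![b₁ ⬝ᵥ z, b₂ ⬝ᵥ z, b₃ ⬝ᵥ z] := by
    ext i
    fin_cases i <;> simp [hM, Matrix.mulVec]
  rw [hz]
  simp [dotProduct, Fin.sum_univ_three]

/-- the sign argument -/
theorem sign_contra {α β γ : ℝ} (f : ℝ → ℝ → ℝ → ℝ)
    (hf : ∀ p₁ p₂ p₃, f p₁ p₂ p₃ = α * p₁ + β * p₂ + γ * p₃)
    (h0 : ∃ p₁ p₂ p₃, 0 < p₁ ∧ 0 < p₂ ∧ 0 < p₃ ∧ 0 < f p₁ p₂ p₃)
    (h0' : ∃ p₁ p₂ p₃, 0 < p₁ ∧ 0 < p₂ ∧ 0 < p₃ ∧ f p₁ p₂ p₃ < 0)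
    (h1 : ∃ p₁ p₂ p₃, p₁ < 0 ∧ 0 < p₂ ∧ 0 < p₃ ∧ 0 < f p₁ p₂ p₃)
    (h1' : ∃ p₁ p₂ p₃, p₁ < 0 ∧ 0 < p₂ ∧ 0 < p₃ ∧ f p₁ p₂ p₃ < 0)
    (h2 : ∃ p₁ p₂ p₃, 0 < p₁ ∧ p₂ < 0 ∧ 0 < p₃ ∧ 0 < f p₁ p₂ p₃)
    (h2' : ∃ p₁ p₂ p₃, 0 < p₁ ∧ p₂ < 0 ∧ 0 < p₃ ∧ f p₁ p₂ p₃ < 0)
    (h3 : ∃ p₁ p₂ p₃, 0 < p₁ ∧ 0 < p₂ ∧ p₃ < 0 ∧ 0 < f p₁ p₂ p₃)
    (h3' : ∃ p₁ p₂ p₃, 0 < p₁ ∧ 0 < p₂ ∧ p₃ < 0 ∧ f p₁ p₂ p₃ < 0) : False := by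
  rcases le_total 0 α with ha | ha <;> rcases le_total 0 β with hb | hb <;>
    rcases le_total 0 γ with hc | hc
  · obtain ⟨p₁, p₂, p₃, e₁, e₂, e₃, e⟩ := h0'
    rw [hf] at e
    nlinarith [mul_nonneg ha e₁.le, mul_nonneg hb e₂.le, mul_nonneg hc e₃.le]
  · obtain ⟨p₁, p₂, p₃, e₁, e₂, e₃, e⟩ := h3'
    rw [hf] at e
    nlinarith [mul_nonneg ha e₁.le, mul_nonneg hb e₂.le, mul_nonneg_of_nonpos_of_nonpos hc e₃.le]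
  · obtain ⟨p₁, p₂, p₃, e₁, e₂, e₃, e⟩ := h2'
    rw [hf] at e
    nlinarith [mul_nonneg ha e₁.le, mul_nonneg_of_nonpos_of_nonpos hb e₂.le, mul_nonneg hc e₃.le]
  · obtain ⟨p₁, p₂, p₃, e₁, e₂, e₃, e⟩ := h1
    rw [hf] at e
    nlinarith [mul_nonpos_of_nonneg_of_nonpos ha e₁.le, mul_nonpos_of_nonpos_of_nonneg hb e₂.le,
      mul_nonpos_of_nonpos_of_nonneg hc e₃.le]
  · obtain ⟨p₁, p₂, p₃, e₁, e₂, e₃, e⟩ := h1'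
    rw [hf] at e
    nlinarith [mul_nonneg_of_nonpos_of_nonpos ha e₁.le, mul_nonneg hb e₂.le, mul_nonneg hc e₃.le]
  · obtain ⟨p₁, p₂, p₃, e₁, e₂, e₃, e⟩ := h2
    rw [hf] at e
    nlinarith [mul_nonpos_of_nonpos_of_nonneg ha e₁.le, mul_nonpos_of_nonneg_of_nonpos hb e₂.le,
      mul_nonpos_of_nonpos_of_nonneg hc e₃.le]
  · obtain ⟨p₁, p₂, p₃, e₁, e₂, e₃, e⟩ := h3
    rw [hf] at e
    nlinarith [mul_nonpos_of_nonpos_of_nonneg ha e₁.le, mul_nonpos_of_nonpos_of_nonneg hb e₂.le,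
      mul_nonpos_of_nonneg_of_nonpos hc e₃.le]
  · obtain ⟨p₁, p₂, p₃, e₁, e₂, e₃, e⟩ := h0
    rw [hf] at e
    nlinarith [mul_nonpos_of_nonpos_of_nonneg ha e₁.le, mul_nonpos_of_nonpos_of_nonneg hb e₂.le,
      mul_nonpos_of_nonpos_of_nonneg hc e₃.le]

variable {ι : Type} {a : ι → Fin 3 → ℝ}

/-- At most two common bounding lines on each side. -/
theorem no_three (hG : GP a) {x x' : Fin 3 → ℝ} (hx : ∀ i, a i ⬝ᵥ x ≠ 0)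
    {ν : ι} (hν : (a ν ⬝ᵥ x) * (a ν ⬝ᵥ x') < 0)
    {i₁ i₂ i₃ : ι} (h12 : i₁ ≠ i₂) (h13 : i₁ ≠ i₃) (h23 : i₂ ≠ i₃)
    (p₁ : 0 < (a i₁ ⬝ᵥ x) * (a i₁ ⬝ᵥ x')) (p₂ : 0 < (a i₂ ⬝ᵥ x) * (a i₂ ⬝ᵥ x'))
    (p₃ : 0 < (a i₃ ⬝ᵥ x) * (a i₃ ⬝ᵥ x'))
    (b₁ : Bd a x i₁) (b₂ : Bd a x i₂) (b₃ : Bd a x i₃)
    (c₁ : Bd a x' i₁) (c₂ : Bd a x' i₂) (c₃ : Bd a x' i₃) : False := by
  have hn : ∀ i, 0 < (a i ⬝ᵥ x) * (a i ⬝ᵥ x') → ν ≠ i := by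
    rintro i hi rfl; linarith
  have n₁ := hn _ p₁
  have n₂ := hn _ p₂
  have n₃ := hn _ p₃
  -- scaled coefficient vectors
  have hxx : ∀ i, 0 < (a i ⬝ᵥ x) * (a i ⬝ᵥ x) := fun i => mul_self_pos.2 (hx i)
  obtain ⟨α, β, γ, hc⟩ := exists_coeff (b₁ := (a i₁ ⬝ᵥ x) • a i₁) (b₂ := (a i₂ ⬝ᵥ x) • a i₂)
    (b₃ := (a i₃ ⬝ᵥ x) • a i₃) (by
      intro w h₁ h₂ h₃
      rw [smul_dotProduct, smul_eq_mul] at h₁ h₂ h₃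
      exact hG i₁ i₂ i₃ h12 h13 h23 w ((mul_eq_zero.1 h₁).resolve_left (hx _))
        ((mul_eq_zero.1 h₂).resolve_left (hx _)) ((mul_eq_zero.1 h₃).resolve_left (hx _)))
    ((a ν ⬝ᵥ x) • a ν)
  simp only [smul_dotProduct, smul_eq_mul] at hc
  -- transfer of signs from `x'` to `x`
  have tpos : ∀ i, 0 < (a i ⬝ᵥ x) * (a i ⬝ᵥ x') → ∀ u : Fin 3 → ℝ,
      0 < (a i ⬝ᵥ x') * (a i ⬝ᵥ u) → 0 < (a i ⬝ᵥ x) * (a i ⬝ᵥ u) := by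
    intro i hi u hu
    have h3 : 0 < ((a i ⬝ᵥ x) * (a i ⬝ᵥ u)) * ((a i ⬝ᵥ x') * (a i ⬝ᵥ x')) := by
      nlinarith [mul_pos hi hu]
    have h4 : 0 ≤ (a i ⬝ᵥ x') * (a i ⬝ᵥ x') := mul_self_nonneg _
    by_contra hcon
    nlinarith [mul_nonneg (neg_nonneg.2 (not_lt.1 hcon)) h4]
  have tneg : ∀ i, 0 < (a i ⬝ᵥ x) * (a i ⬝ᵥ x') → ∀ u : Fin 3 → ℝ,
      (a i ⬝ᵥ x') * (a i ⬝ᵥ u) < 0 → (a i ⬝ᵥ x) * (a i ⬝ᵥ u) < 0 := by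
    intro i hi u hu
    have := tpos i hi (-u) (by rw [dotProduct_neg]; linarith)
    rw [dotProduct_neg] at this
    linarith
  have tν : ∀ u : Fin 3 → ℝ,
      0 < (a ν ⬝ᵥ x') * (a ν ⬝ᵥ u) → (a ν ⬝ᵥ x) * (a ν ⬝ᵥ u) < 0 := by
    intro u hu
    have h3 : ((a ν ⬝ᵥ x) * (a ν ⬝ᵥ u)) * ((a ν ⬝ᵥ x') * (a ν ⬝ᵥ x')) < 0 := by
      nlinarith [mul_pos (neg_pos.2 hν) hu]
    have h4 : 0 ≤ (a ν ⬝ᵥ x') * (a ν ⬝ᵥ x') := mul_self_nonneg _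
    by_contra hcon
    nlinarith [mul_nonneg (not_lt.1 hcon) h4]
  obtain ⟨u₁, e₁, f₁⟩ := b₁
  obtain ⟨u₂, e₂, f₂⟩ := b₂
  obtain ⟨u₃, e₃, f₃⟩ := b₃
  obtain ⟨v₁, g₁, k₁⟩ := c₁
  obtain ⟨v₂, g₂, k₂⟩ := c₂
  obtain ⟨v₃, g₃, k₃⟩ := c₃
  refine sign_contra (α := α) (β := β) (γ := γ) (fun p₁ p₂ p₃ => α * p₁ + β * p₂ + γ * p₃)
    (fun _ _ _ => rfl)
    ⟨_, _, _, hxx i₁, hxx i₂, hxx i₃, ?_⟩
    ⟨_, _, _, p₁, p₂, p₃, ?_⟩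
    ⟨_, _, _, e₁, f₁ _ h12.symm, f₁ _ h13.symm, ?_⟩
    ⟨_, _, _, tneg _ p₁ _ g₁, tpos _ p₂ _ (k₁ _ h12.symm), tpos _ p₃ _ (k₁ _ h13.symm), ?_⟩
    ⟨_, _, _, f₂ _ h12, e₂, f₂ _ h23.symm, ?_⟩
    ⟨_, _, _, tpos _ p₁ _ (k₂ _ h12), tneg _ p₂ _ g₂, tpos _ p₃ _ (k₂ _ h23.symm), ?_⟩
    ⟨_, _, _, f₃ _ h13, f₃ _ h23, e₃, ?_⟩
    ⟨_, _, _, tpos _ p₁ _ (k₃ _ h13), tpos _ p₂ _ (k₃ _ h23), tneg _ p₃ _ g₃, ?_⟩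
  · show 0 < α * _ + β * _ + γ * _
    rw [← hc]; exact hxx ν
  · show α * _ + β * _ + γ * _ < 0
    rw [← hc]; exact hν
  · show 0 < α * _ + β * _ + γ * _
    rw [← hc]; exact f₁ _ n₁
  · show α * _ + β * _ + γ * _ < 0
    rw [← hc]; exact tν _ (k₁ _ n₁)
  · show 0 < α * _ + β * _ + γ * _
    rw [← hc]; exact f₂ _ n₂
  · show α * _ + β * _ + γ * _ < 0
    rw [← hc]; exact tν _ (k₂ _ n₂)
  · show 0 < α * _ + β * _ + γ * _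
    rw [← hc]; exact f₃ _ n₃
  · show α * _ + β * _ + γ * _ < 0
    rw [← hc]; exact tν _ (k₃ _ n₃)

theorem Bd_neg {x : Fin 3 → ℝ} {i : ι} (h : Bd a x i) : Bd a (-x) i := by
  obtain ⟨u, hu, huj⟩ := h
  refine ⟨-u, ?_, fun j hj => ?_⟩
  · rw [dotProduct_neg, dotProduct_neg]; linarith
  · rw [dotProduct_neg, dotProduct_neg]; have := huj j hj; linarith

open Classical in
/-- two distinct faces have at most four common bounding lines -/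
theorem common_le_four [Fintype ι] [DecidableEq ι] (hG : GP a) {x x' : Fin 3 → ℝ} (hx : ∀ i, a i ⬝ᵥ x ≠ 0)
    (hx' : ∀ i, a i ⬝ᵥ x' ≠ 0)
    (h1 : ∃ ν, (a ν ⬝ᵥ x) * (a ν ⬝ᵥ x') < 0) (h2 : ∃ ν, 0 < (a ν ⬝ᵥ x) * (a ν ⬝ᵥ x')) :
    ((Finset.univ.filter fun j => Bd a x j) ∩ (Finset.univ.filter fun j => Bd a x' j)).card ≤ 4 := by
  set S := (Finset.univ.filter fun j => Bd a x j) ∩ (Finset.univ.filter fun j => Bd a x' j) with hS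
  have hSm : ∀ j, j ∈ S → Bd a x j ∧ Bd a x' j := by
    intro j hj
    rw [hS, Finset.mem_inter, Finset.mem_filter, Finset.mem_filter] at hj
    exact ⟨hj.1.2, hj.2.2⟩
  have hpos : (S.filter fun j => 0 < (a j ⬝ᵥ x) * (a j ⬝ᵥ x')).card ≤ 2 := by
    by_contra hcon
    obtain ⟨i₁, i₂, i₃, m₁, m₂, m₃, d₁, d₂, d₃⟩ := Finset.two_lt_card_iff.1 (not_le.1 hcon)
    rw [Finset.mem_filter] at m₁ m₂ m₃
    obtain ⟨ν, hν⟩ := h1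
    exact no_three hG hx hν d₁ d₂ d₃ m₁.2 m₂.2 m₃.2 (hSm _ m₁.1).1 (hSm _ m₂.1).1 (hSm _ m₃.1).1
      (hSm _ m₁.1).2 (hSm _ m₂.1).2 (hSm _ m₃.1).2
  have hneg : (S.filter fun j => ¬ 0 < (a j ⬝ᵥ x) * (a j ⬝ᵥ x')).card ≤ 2 := by
    by_contra hcon
    obtain ⟨i₁, i₂, i₃, m₁, m₂, m₃, d₁, d₂, d₃⟩ := Finset.two_lt_card_iff.1 (not_le.1 hcon)
    rw [Finset.mem_filter] at m₁ m₂ m₃
    obtain ⟨ν, hν⟩ := h2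
    have q : ∀ j, ¬ 0 < (a j ⬝ᵥ x) * (a j ⬝ᵥ x') → 0 < (a j ⬝ᵥ x) * (a j ⬝ᵥ (-x')) := by
      intro j hj
      rw [dotProduct_neg]
      have := lt_of_le_of_ne (not_lt.1 hj) (mul_ne_zero (hx j) (hx' j))
      linarith
    exact no_three hG (x' := -x') hx (ν := ν) (by rw [dotProduct_neg]; linarith) d₁ d₂ d₃
      (q _ m₁.2) (q _ m₂.2) (q _ m₃.2) (hSm _ m₁.1).1 (hSm _ m₂.1).1 (hSm _ m₃.1).1
      (Bd_neg (hSm _ m₁.1).2) (Bd_neg (hSm _ m₂.1).2) (Bd_neg (hSm _ m₃.1).2)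
  have := Finset.card_filter_add_card_filter_not (s := S) (fun j => 0 < (a j ⬝ᵥ x) * (a j ⬝ᵥ x'))
  omega

open Classical in
/-- Bonferroni -/
theorem sum_card_le [Fintype ι] [DecidableEq ι] {κ : Type} [DecidableEq κ] (S : κ → Finset ι) (s : Finset κ)
    (h : ∀ i ∈ s, ∀ j ∈ s, i ≠ j → (S i ∩ S j).card ≤ 4) :
    ∑ i ∈ s, (S i).card ≤ (s.biUnion S).card + 2 * (s.card * (s.card - 1)) := by
  induction s using Finset.induction_on with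
  | empty => simp
  | insert i s hi ih =>
    have ih' := ih fun p hp q hq => h p (Finset.mem_insert_of_mem hp) q (Finset.mem_insert_of_mem hq)
    rw [Finset.sum_insert hi, Finset.biUnion_insert, Finset.card_insert_of_notMem hi]
    have h1 : (S i ∩ s.biUnion S).card ≤ 4 * s.card := by
      rw [Finset.inter_biUnion]
      refine Finset.card_biUnion_le.trans ?_
      calc ∑ j ∈ s, (S i ∩ S j).card ≤ ∑ j ∈ s, 4 := Finset.sum_le_sum fun j hj =>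
            h i (Finset.mem_insert_self _ _) j (Finset.mem_insert_of_mem hj)
              (fun he => hi (he ▸ hj))
        _ = 4 * s.card := by rw [Finset.sum_const, smul_eq_mul, mul_comm]
    have h2 := Finset.card_union_add_card_inter (S i) (s.biUnion S)
    have h3 : 2 * ((s.card + 1) * (s.card + 1 - 1)) = 2 * (s.card * (s.card - 1)) + 4 * s.card := by
      rcases Nat.eq_zero_or_pos s.card with h0 | h0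
      · rw [h0]
      · obtain ⟨m, hm⟩ : ∃ m, s.card = m + 1 := ⟨s.card - 1, by omega⟩
        rw [hm]; simp only [Nat.add_sub_cancel]; ring
    omega

end Pool.Agent.Y628.LA
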